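import Mathlib

/-! Invertible automata over an arbitrary alphabet, their action on words, and upper bounds for
the number of maps induced on a level. -/

set_option autoImplicit false

namespace Pool.Agent.P.MP_4ffd61_al

open Equiv

/-- An invertible automaton with state set `Q` over the alphabet `X`. -/
structure Aut (Q X : Type) where
  nx : Q → X → Q
  out : Q → Perm X

/-- Words of length `n`. -/
abbrev W (X : Type) (n : ℕ) := {w : List X // w.length = n}

instance W.fintype (X : Type) [Fintype X] (n : ℕ) : Fintype (W X n) :=
  inferInstanceAs (Fintype (List.Vector X n))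

theorem card_W (X : Type) [Fintype X] (n : ℕ) : Fintype.card (W X n) = Fintype.card X ^ n :=
  card_vector n

namespace Aut

variable {Q X : Type} (A : Aut Q X)

/-- Action of a state on words. -/
def act : Q → List X → List X
  | _, [] => []
  | q, x :: w => A.out q x :: act (A.nx q x) w

/-- State reached after reading a word. -/
def dst (q : Q) (u : List X) : Q := u.foldl A.nx q

/-- Action of a product of states. -/
def actL (qs : List Q) (w : List X) : List X := qs.foldr A.act w

/-- Label of a product of states at a vertex. -/
def lab : List Q → List X → Perm X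
  | [], _ => 1
  | q :: qs, u => A.out (A.dst q (A.actL qs u)) * lab qs u

/-- The maps induced on level `n` by the monoid generated by the states. -/
def Lset (n : ℕ) : Set (W X n → W X n) := {h | ∃ qs : List Q, ∀ w, (h w).1 = A.actL qs w.1}

@[simp] theorem act_nil (q : Q) : A.act q [] = [] := rfl
@[simp] theorem act_cons (q : Q) (x : X) (w : List X) :
    A.act q (x :: w) = A.out q x :: A.act (A.nx q x) w := rfl
@[simp] theorem dst_nil (q : Q) : A.dst q [] = q := rfl
@[simp] theorem dst_cons (q : Q) (x : X) (w : List X) :
    A.dst q (x :: w) = A.dst (A.nx q x) w := rfl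
theorem dst_append (q : Q) (u v : List X) : A.dst q (u ++ v) = A.dst (A.dst q u) v := by
  simp [dst, List.foldl_append]
@[simp] theorem actL_nil (w : List X) : A.actL [] w = w := rfl
@[simp] theorem actL_cons (q : Q) (qs : List Q) (w : List X) :
    A.actL (q :: qs) w = A.act q (A.actL qs w) := rfl
theorem actL_append (qs rs : List Q) (w : List X) :
    A.actL (qs ++ rs) w = A.actL qs (A.actL rs w) := by
  simp [actL, List.foldr_append]

@[simp] theorem length_act (q : Q) (w : List X) : (A.act q w).length = w.length := by
  induction w generalizing q with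
  | nil => rfl
  | cons x w ih => simp [ih]

@[simp] theorem length_actL (qs : List Q) (w : List X) : (A.actL qs w).length = w.length := by
  induction qs with
  | nil => rfl
  | cons q qs ih => simp [ih]

theorem act_append (q : Q) (u v : List X) :
    A.act q (u ++ v) = A.act q u ++ A.act (A.dst q u) v := by
  induction u generalizing q with
  | nil => rfl
  | cons x u ih => simp [ih]

theorem act_snoc (q : Q) (u : List X) (x : X) :
    A.act q (u ++ [x]) = A.act q u ++ [A.out (A.dst q u) x] := by
  rw [act_append]; rfl

theorem actL_snoc (qs : List Q) (u : List X) (x : X) :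
    A.actL qs (u ++ [x]) = A.actL qs u ++ [A.lab qs u x] := by
  induction qs with
  | nil => rfl
  | cons q qs ih => simp [ih, act_snoc, lab]

theorem act_injective (q : Q) : Function.Injective (A.act q) := by
  intro u v h
  induction u generalizing q v with
  | nil =>
    cases v with
    | nil => rfl
    | cons y v => simp at h
  | cons x u ih =>
    cases v with
    | nil => simp at h
    | cons y v =>
      simp only [act_cons, List.cons.injEq, EmbeddingLike.apply_eq_iff_eq] at h
      obtain ⟨rfl, h⟩ := h
      rw [ih _ h]

theorem take_act (q : Q) (w : List X) (i : ℕ) : (A.act q w).take i = A.act q (w.take i) := by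
  induction w generalizing q i with
  | nil => simp
  | cons x w ih =>
    cases i with
    | zero => simp
    | succ i => simp [ih]

theorem take_actL (qs : List Q) (w : List X) (i : ℕ) :
    (A.actL qs w).take i = A.actL qs (w.take i) := by
  induction qs with
  | nil => rfl
  | cons q qs ih => simp [take_act, ih]

theorem actL_append_word (qs : List Q) (u v : List X) :
    ∃ v', A.actL qs (u ++ v) = A.actL qs u ++ v' := by
  refine ⟨(A.actL qs (u ++ v)).drop u.length, ?_⟩
  conv_lhs => rw [← List.take_append_drop u.length (A.actL qs (u ++ v))]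
  rw [take_actL]; simp

/-- The trivial upper bound. -/
theorem ncard_Lset_le [Fintype X] [Inhabited X] (n : ℕ) :
    (A.Lset n).ncard ≤
      (Fintype.card X + 1) ^ (∑ i ∈ Finset.range n, Fintype.card X ^ (i + 1)) := by
  classical
  let pad : (i : Fin n) → W X (i + 1) → W X n := fun i w =>
    ⟨w.1 ++ List.replicate (n - (i + 1)) default, by
      have := w.2; have := i.2; simp only [List.length_append, List.length_replicate]; omega⟩
  let F : (W X n → W X n) → ((i : Fin n) → W X (i + 1) → Option X) := fun h i w =>
    (h (pad i w)).1[i.1]?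
  have key : ∀ (qs : List Q) (v : W X n) (i : Fin n),
      (A.actL qs v.1)[i.1]? = (A.actL qs (pad i ⟨v.1.take (i + 1), by
        have := v.2; have := i.2; simp [v.2]⟩).1)[i.1]? := by
    intro qs v i
    have h1 : ∀ z : List X, (A.actL qs z)[i.1]? = (A.actL qs (z.take (i + 1)))[i.1]? := by
      intro z
      rw [← take_actL, List.getElem?_take_of_lt (Nat.lt_succ_self _)]
    rw [h1, h1 (pad _ _).1]
    congr 2
    have := v.2; have := i.2
    simp only [pad]
    rw [List.take_append_of_le_length (by rw [List.length_take]; omega), List.take_take]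
    simp
  have hinj : Set.InjOn F (A.Lset n) := by
    rintro h ⟨qs, hq⟩ h' ⟨qs', hq'⟩ hF
    funext v
    apply Subtype.ext
    apply List.ext_getElem?
    intro i
    by_cases hi : i < n
    · have := congrFun (congrFun hF ⟨i, hi⟩) ⟨v.1.take (i + 1), by
        have := v.2; simp [v.2]; omega⟩
      simp only [F, hq, hq'] at this
      rw [hq, hq', key qs v ⟨i, hi⟩, key qs' v ⟨i, hi⟩]
      exact this
    · rw [List.getElem?_eq_none (by rw [(h v).2]; omega),
        List.getElem?_eq_none (by rw [(h' v).2]; omega)]
  have h1 : (A.Lset n).ncard ≤ (Set.univ : Set ((i : Fin n) → W X (i + 1) → Option X)).ncard :=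
    Set.ncard_le_ncard_of_injOn F (fun _ _ => Set.mem_univ _) hinj (Set.toFinite _)
  refine h1.trans (le_of_eq ?_)
  rw [Set.ncard_univ, Nat.card_eq_fintype_card, Fintype.card_pi]
  simp only [Fintype.card_pi, Fintype.card_option, Finset.prod_const, Finset.card_univ,
    card_W]
  rw [Finset.prod_pow_eq_pow_sum, Finset.sum_range (fun i => Fintype.card X ^ (i + 1))]

/-- Words of length `n` that avoid a factor. -/
def Avoid (w₀ : List X) (n : ℕ) : Set (W X n) := {u | ¬ w₀ <:+: u.1}

theorem ncard_Avoid_le [Fintype X] (w₀ : List X) (n : ℕ) :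
    (Avoid w₀ n).ncard ≤ Fintype.card X ^ n := by
  classical
  calc (Avoid w₀ n).ncard ≤ (Set.univ : Set (W X n)).ncard :=
        Set.ncard_le_ncard (Set.subset_univ _) (Set.toFinite _)
    _ = _ := by rw [Set.ncard_univ, Nat.card_eq_fintype_card, card_W]

theorem ncard_Avoid_add [Fintype X] (w₀ : List X) (n : ℕ) :
    (Avoid w₀ (n + w₀.length)).ncard ≤
      (Avoid w₀ n).ncard * (Fintype.card X ^ w₀.length - 1) := by
  classical
  let F : W X (n + w₀.length) → W X n × W X w₀.length := fun u =>
    (⟨u.1.take n, by simp [u.2]⟩, ⟨u.1.drop n, by simp [u.2]⟩)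
  have hinj : Function.Injective F := by
    intro u v h
    simp only [F, Prod.mk.injEq] at h
    apply Subtype.ext
    rw [← List.take_append_drop n u.1, ← List.take_append_drop n v.1]
    have h1 := congrArg Subtype.val h.1
    have h2 := congrArg Subtype.val h.2
    simp only at h1 h2
    rw [h1, h2]
  have h1 : (Avoid w₀ (n + w₀.length)).ncard ≤
      ((Avoid w₀ n) ×ˢ ({(⟨w₀, rfl⟩ : W X w₀.length)}ᶜ : Set (W X w₀.length))).ncard := by
    refine Set.ncard_le_ncard_of_injOn F ?_ hinj.injOn (Set.toFinite _)
    intro u hu
    refine ⟨fun h => hu (h.trans (List.take_prefix _ _).isInfix), fun h => hu ?_⟩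
    have h2 := congrArg Subtype.val (Set.mem_singleton_iff.1 h)
    simp only [F] at h2
    have h3 := (List.drop_suffix n u.1).isInfix
    rwa [h2] at h3
  refine h1.trans (le_of_eq ?_)
  rw [Set.ncard_prod, Set.ncard_compl, Set.ncard_singleton, Nat.card_eq_fintype_card, card_W]

/-- If the action on every word is determined by the action on a word that avoids `w₀`, then few
maps are induced. -/
theorem ncard_Lset_le_avoid [Fintype X] {X₁ X₂ : Type} (κ : X → X₁) (ρ : X → X₂)
    (hκρ : ∀ x x', κ x = κ x' → ρ x = ρ x' → x = x')
    (hκ : ∀ q x, κ (A.out q x) = κ x)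
    (R : List X → List X → Prop)
    (hR : ∀ q u v, R u v → R (A.act q u) (A.act q v))
    (hRρ : ∀ u v, R u v → u.map ρ = v.map ρ)
    (w₀ : List X) (hN : ∀ v, ∃ u, R u v ∧ ¬ w₀ <:+: u) (n : ℕ) :
    (A.Lset n).ncard ≤ (Fintype.card X ^ n) ^ (Avoid w₀ n).ncard := by
  classical
  have hκ1 : ∀ q w, (A.act q w).map κ = w.map κ := by
    intro q w
    induction w generalizing q with
    | nil => rfl
    | cons x w ih => simp [hκ, ih]
  have hκ2 : ∀ qs w, (A.actL qs w).map κ = w.map κ := by
    intro qs w
    induction qs with
    | nil => rfl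
    | cons q qs ih => simp [hκ1, ih]
  have hR2 : ∀ qs u v, R u v → R (A.actL qs u) (A.actL qs v) := by
    intro qs u v h
    induction qs with
    | nil => exact h
    | cons q qs ih => exact hR _ _ _ ih
  have hext : ∀ u v : List X, u.map κ = v.map κ → u.map ρ = v.map ρ → u = v := by
    intro u
    induction u with
    | nil => intro v h _; simpa using h.symm
    | cons x u ih =>
      intro v h1 h2
      cases v with
      | nil => simp at h1
      | cons y v =>
        simp only [List.map_cons, List.cons.injEq] at h1 h2
        rw [hκρ x y h1.1 h2.1, ih v h1.2 h2.2]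
  let F : (W X n → W X n) → (Avoid w₀ n → W X n) := fun h u => h u.1
  have hinj : Set.InjOn F (A.Lset n) := by
    rintro h ⟨qs, hq⟩ h' ⟨qs', hq'⟩ hF
    funext v
    apply Subtype.ext
    obtain ⟨u, huv, hu⟩ := hN v.1
    have hlen : u.length = n := by
      have := congrArg List.length (hRρ _ _ huv)
      simpa [v.2] using this
    have h1 := congrArg Subtype.val (congrFun hF ⟨⟨u, hlen⟩, hu⟩)
    simp only [F, hq, hq'] at h1
    rw [hq, hq']
    apply hext
    · rw [hκ2, hκ2]
    · rw [← hRρ _ _ (hR2 qs _ _ huv), ← hRρ _ _ (hR2 qs' _ _ huv), h1]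
  have h1 : (A.Lset n).ncard ≤ (Set.univ : Set (Avoid w₀ n → W X n)).ncard :=
    Set.ncard_le_ncard_of_injOn F (fun _ _ => Set.mem_univ _) hinj (Set.toFinite _)
  refine h1.trans (le_of_eq ?_)
  rw [Set.ncard_univ, Nat.card_fun, Nat.card_eq_fintype_card, card_W, Nat.card_coe_set_eq]

end Aut

end Pool.Agent.P.MP_4ffd61_al
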