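import Pool.Agent.P.MP_4ffd61_al.Lower

/-! The automaton with a hidden bit that is revealed by finite-state checkers. -/

set_option autoImplicit false

namespace Pool.Agent.P.MP_4ffd61_al

open Equiv

/-- Disjoint union of two automata. -/
def Aut.sum {Q₁ Q₂ X : Type} (A₁ : Aut Q₁ X) (A₂ : Aut Q₂ X) : Aut (Q₁ ⊕ Q₂) X where
  nx
    | Sum.inl q, x => Sum.inl (A₁.nx q x)
    | Sum.inr q, x => Sum.inr (A₂.nx q x)
  out
    | Sum.inl q => A₁.out q
    | Sum.inr q => A₂.out q

theorem Aut.sum_act_inl {Q₁ Q₂ X : Type} (A₁ : Aut Q₁ X) (A₂ : Aut Q₂ X) (q : Q₁) (w : List X) :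
    (A₁.sum A₂).act (Sum.inl q) w = A₁.act q w := by
  induction w generalizing q with
  | nil => rfl
  | cons x w ih => exact congrArg _ (ih _)

theorem Aut.sum_act_inr {Q₁ Q₂ X : Type} (A₁ : Aut Q₁ X) (A₂ : Aut Q₂ X) (q : Q₂) (w : List X) :
    (A₁.sum A₂).act (Sum.inr q) w = A₂.act q w := by
  induction w generalizing q with
  | nil => rfl
  | cons x w ih => exact congrArg _ (ih _)

theorem Aut.sum_dst_inl {Q₁ Q₂ X : Type} (A₁ : Aut Q₁ X) (A₂ : Aut Q₂ X) (q : Q₁) (w : List X) :
    (A₁.sum A₂).dst (Sum.inl q) w = Sum.inl (A₁.dst q w) := by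
  induction w generalizing q with
  | nil => rfl
  | cons x w ih => exact ih _

theorem Aut.sum_dst_inr {Q₁ Q₂ X : Type} (A₁ : Aut Q₁ X) (A₂ : Aut Q₂ X) (q : Q₂) (w : List X) :
    (A₁.sum A₂).dst (Sum.inr q) w = Sum.inr (A₂.dst q w) := by
  induction w generalizing q with
  | nil => rfl
  | cons x w ih => exact ih _

/-- A finite-state checker. -/
structure Chk (S Y : Type) where
  nx : S → Y → S
  rv : S → Y → Bool

/-- State of a checker after a word. -/
def Chk.run {S Y : Type} (C : Chk S Y) (s : S) (u : List Y) : S := u.foldl C.nx s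

@[simp] theorem Chk.run_nil {S Y : Type} (C : Chk S Y) (s : S) : C.run s [] = s := rfl
@[simp] theorem Chk.run_cons {S Y : Type} (C : Chk S Y) (s : S) (y : Y) (u : List Y) :
    C.run s (y :: u) = C.run (C.nx s y) u := rfl
theorem Chk.run_append {S Y : Type} (C : Chk S Y) (s : S) (u v : List Y) :
    C.run s (u ++ v) = C.run (C.run s u) v := by simp [Chk.run, List.foldl_append]

/-- The checker reveals the hidden bit of the last letter. -/
def Chk.Rev {S Y : Type} (C : Chk S Y) (w : List Y) : Prop :=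
  ∃ s u y, w = u ++ [y] ∧ C.rv (C.run s u) y = true

section comp

variable {Y : Type}

/-- Flip the address bit when a condition on the other tracks holds. -/
def flipIf (p : (Y × Bool) × Fin 5 → Bool) : Perm (XX (Y × Bool)) :=
  Function.Involutive.toPerm (fun x => (x.1, xor x.2.1 (p (x.1, x.2.2)), x.2.2))
    (by rintro ⟨b, c, z⟩; simp)

@[simp] theorem flipIf_apply (p : (Y × Bool) × Fin 5 → Bool) (x : XX (Y × Bool)) :
    flipIf p x = (x.1, xor x.2.1 (p (x.1, x.2.2)), x.2.2) := rfl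

/-- Action on the first track. -/
def yperm (σ : Perm Y) : Perm (XX (Y × Bool)) :=
  Equiv.prodCongr (Equiv.prodCongr σ (Equiv.refl _)) (Equiv.refl _)

@[simp] theorem yperm_apply (σ : Perm Y) (x : XX (Y × Bool)) :
    yperm σ x = ((σ x.1.1, x.1.2), x.2) := rfl

/-- The first track of a word. -/
def ytr (w : List (XX (Y × Bool))) : List Y := w.map (fun x => x.1.1)

@[simp] theorem ytr_nil : ytr ([] : List (XX (Y × Bool))) = [] := rfl
@[simp] theorem ytr_cons (x : XX (Y × Bool)) (w : List (XX (Y × Bool))) :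
    ytr (x :: w) = x.1.1 :: ytr w := rfl
theorem ytr_append (u v : List (XX (Y × Bool))) : ytr (u ++ v) = ytr u ++ ytr v := by simp [ytr]

/-- The odometer on addresses. -/
def Atau (Y : Type) : Aut Bool (XX (Y × Bool)) where
  nx c x := c && x.2.1
  out c := flipIf (fun _ => c)

/-- The gates. -/
def Agate (Y : Type) : Aut (Bool × A5) (XX (Y × Bool)) where
  nx g x := (g.1 || x.2.1, g.2)
  out g := zperm _ (if g.1 then g.2 else 1)

open Classical in
/-- The letter tests. -/
noncomputable def Atest (Y : Type) : Aut (Y × Fin 5) (XX (Y × Bool)) where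
  nx t _ := t
  out t := flipIf (fun x => decide (x.1.1 = t.1 ∧ x.2 = t.2))

/-- An automaton over `Y` acting on the first track. -/
def Amv {P : Type} (AP : Aut P Y) : Aut P (XX (Y × Bool)) where
  nx p x := AP.nx p x.1.1
  out p := yperm (AP.out p)

/-- A checker writing the hidden bit onto the address. -/
def Arev {S : Type} (C : Chk S Y) : Aut S (XX (Y × Bool)) where
  nx s x := C.nx s x.1.1
  out s := flipIf (fun x => C.rv s x.1.1 && x.1.2)

theorem Atau_false (w : List (XX (Y × Bool))) : (Atau Y).act false w = w := by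
  induction w with
  | nil => rfl
  | cons x w ih =>
    rw [Aut.act_cons, show (Atau Y).nx false x = false from rfl, ih]
    simp [Atau]

theorem Atau_true (w : List (XX (Y × Bool))) : (Atau Y).act true w = odoA w := by
  induction w with
  | nil => rfl
  | cons x w ih =>
    obtain ⟨b, c, z⟩ := x
    cases c with
    | false =>
      rw [Aut.act_cons, show (Atau Y).nx true (b, false, z) = false from rfl, Atau_false]
      rfl
    | true =>
      rw [Aut.act_cons, show (Atau Y).nx true (b, true, z) = true from rfl, ih]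
      rfl

theorem Agate_true (a : A5) (w : List (XX (Y × Bool))) :
    (Agate Y).act (true, a) w = (Zaut _).act (fun _ => a) w := by
  induction w with
  | nil => rfl
  | cons x w ih =>
    rw [Aut.act_cons, show (Agate Y).nx (true, a) x = (true, a) from rfl, ih]
    rfl

theorem Agate_false (a : A5) (w : List (XX (Y × Bool))) :
    (Agate Y).act (false, a) w = (Zaut _).act (kap a) w := by
  induction w with
  | nil => rfl
  | cons x w ih =>
    obtain ⟨b, c, z⟩ := x
    cases c with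
    | false =>
      have h : (Zaut (Y × Bool)).nx (kap a) (b, false, z) = kap a := by
        funext β; simp [Zaut, kap]
      rw [Aut.act_cons, show (Agate Y).nx (false, a) (b, false, z) = (false, a) from rfl, ih,
        Aut.act_cons, h]
      rfl
    | true =>
      have h : (Zaut (Y × Bool)).nx (kap a) (b, true, z) = fun _ => a := by
        funext β; simp [Zaut, kap]
      rw [Aut.act_cons, show (Agate Y).nx (false, a) (b, true, z) = (true, a) from rfl,
        Agate_true, Aut.act_cons, h]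
      rfl

theorem Amv_ytr {P : Type} (AP : Aut P Y) (p : P) (w : List (XX (Y × Bool))) :
    ytr ((Amv AP).act p w) = AP.act p (ytr w) := by
  induction w generalizing p with
  | nil => rfl
  | cons x w ih => rw [Aut.act_cons, ytr_cons, ih]; rfl

theorem Arev_dst {S : Type} (C : Chk S Y) (s : S) (w : List (XX (Y × Bool))) :
    (Arev C).dst s w = C.run s (ytr w) := by
  induction w generalizing s with
  | nil => rfl
  | cons x w ih => rw [Aut.dst_cons, ih]; rfl

theorem ytr_act_of_out {Q : Type} (A : Aut Q (XX (Y × Bool)))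
    (h : ∀ q x, (A.out q x).1.1 = x.1.1) (q : Q) (w : List (XX (Y × Bool))) :
    ytr (A.act q w) = ytr w := by
  induction w generalizing q with
  | nil => rfl
  | cons x w ih => rw [Aut.act_cons, ytr_cons, ih, h]; rfl

/-- The visible part of a letter. -/
def vis (x : XX (Y × Bool)) : Y × Bool × Fin 5 := (x.1.1, x.2)

/-- What an automaton must satisfy to keep the hidden bits hidden. -/
structure Good {Q : Type} (A : Aut Q (XX (Y × Bool))) (Hid : List Y → Prop) : Prop where
  nx : ∀ q x x', vis x = vis x' → A.nx q x = A.nx q x'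
  hid : ∀ q x, (A.out q x).1.2 = x.1.2
  out : ∀ q u x x', vis x = vis x' → Hid (ytr (u ++ [x])) →
    vis (A.out (A.dst q u) x) = vis (A.out (A.dst q u) x')
  inv : ∀ q u, Hid (ytr u) → Hid (ytr (A.act q u))

theorem Good.sum {Q₁ Q₂ : Type} {A₁ : Aut Q₁ (XX (Y × Bool))} {A₂ : Aut Q₂ (XX (Y × Bool))}
    {Hid : List Y → Prop} (h₁ : Good A₁ Hid) (h₂ : Good A₂ Hid) : Good (A₁.sum A₂) Hid where
  nx := by
    rintro (q | q) x x' h
    · exact congrArg Sum.inl (h₁.nx q x x' h)
    · exact congrArg Sum.inr (h₂.nx q x x' h)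
  hid := by
    rintro (q | q) x
    · exact h₁.hid q x
    · exact h₂.hid q x
  out := by
    rintro (q | q) u x x' h hH
    · rw [Aut.sum_dst_inl]; exact h₁.out q u x x' h hH
    · rw [Aut.sum_dst_inr]; exact h₂.out q u x x' h hH
  inv := by
    rintro (q | q) u hH
    · rw [Aut.sum_act_inl]; exact h₁.inv q u hH
    · rw [Aut.sum_act_inr]; exact h₂.inv q u hH

theorem vis_eq {x x' : XX (Y × Bool)} (h : vis x = vis x') : x.1.1 = x'.1.1 ∧ x.2 = x'.2 := by
  simpa [vis] using h

theorem good_Atau (Hid : List Y → Prop) : Good (Atau Y) Hid where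
  nx q x x' h := by simp [Atau, (vis_eq h).2]
  hid q x := rfl
  out q u x x' h _ := by simp [Atau, vis, (vis_eq h).1, (vis_eq h).2]
  inv q u h := by rwa [ytr_act_of_out _ (fun _ _ => rfl)]

theorem good_Agate (Hid : List Y → Prop) : Good (Agate Y) Hid where
  nx q x x' h := by simp [Agate, (vis_eq h).2]
  hid q x := rfl
  out q u x x' h _ := by simp [Agate, vis, (vis_eq h).1, (vis_eq h).2]
  inv q u h := by rwa [ytr_act_of_out _ (fun _ _ => rfl)]

theorem good_Atest (Hid : List Y → Prop) : Good (Atest Y) Hid where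
  nx q x x' h := rfl
  hid q x := rfl
  out q u x x' h _ := by simp [Atest, vis, (vis_eq h).1, (vis_eq h).2]
  inv q u h := by rwa [ytr_act_of_out _ (fun _ _ => rfl)]

theorem good_Amv {P : Type} (AP : Aut P Y) (Hid : List Y → Prop)
    (hP : ∀ p w, Hid w → Hid (AP.act p w)) : Good (Amv AP) Hid where
  nx q x x' h := by simp [Amv, (vis_eq h).1]
  hid q x := rfl
  out q u x x' h _ := by simp [Amv, vis, (vis_eq h).1, (vis_eq h).2]
  inv q u h := by rw [Amv_ytr]; exact hP _ _ h

theorem good_Arev {S : Type} (C : Chk S Y) (Hid : List Y → Prop)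
    (hC : ∀ w, Hid w → ¬ C.Rev w) : Good (Arev C) Hid where
  nx q x x' h := by simp [Arev, (vis_eq h).1]
  hid q x := rfl
  out q u x x' h hH := by
    have h1 : C.rv (C.run q (ytr u)) x.1.1 = false := by
      by_contra h2
      exact hC _ hH ⟨q, ytr u, x.1.1, by rw [ytr_append]; rfl, by simpa using h2⟩
    rw [Arev_dst]
    simp [Arev, vis, ← (vis_eq h).1, ← (vis_eq h).2, h1]
  inv q u h := by rwa [ytr_act_of_out _ (fun _ _ => rfl)]

/-- Words that differ only in hidden bits. -/
inductive Rel (Hid : List Y → Prop) : List (XX (Y × Bool)) → List (XX (Y × Bool)) → Prop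
  | nil : Rel Hid [] []
  | snoc (u v : List (XX (Y × Bool))) (x x' : XX (Y × Bool)) : Rel Hid u v → vis x = vis x' →
      (x.1.2 = x'.1.2 ∨ Hid (ytr (u ++ [x]))) → Rel Hid (u ++ [x]) (v ++ [x'])

theorem Rel.map_vis {Hid : List Y → Prop} {u v : List (XX (Y × Bool))} (h : Rel Hid u v) :
    u.map vis = v.map vis := by
  induction h with
  | nil => rfl
  | snoc u v x x' _ h _ ih => simp [ih, h]

theorem eq_of_vis (x x' : XX (Y × Bool)) (h1 : x.1.2 = x'.1.2) (h2 : vis x = vis x') : x = x' :=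
  Prod.ext (Prod.ext (vis_eq h2).1 h1) (vis_eq h2).2

theorem Good.dst_eq {Q : Type} {A : Aut Q (XX (Y × Bool))} {Hid : List Y → Prop} (hA : Good A Hid)
    (q : Q) (u v : List (XX (Y × Bool))) (h : u.map vis = v.map vis) : A.dst q u = A.dst q v := by
  induction u generalizing q v with
  | nil => rw [List.map_nil, eq_comm, List.map_eq_nil_iff] at h; rw [h]
  | cons x u ih =>
    cases v with
    | nil => simp at h
    | cons y v =>
      simp only [List.map_cons, List.cons.injEq] at h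
      rw [Aut.dst_cons, Aut.dst_cons, hA.nx q x y h.1, ih _ _ h.2]

theorem Good.rel_act {Q : Type} {A : Aut Q (XX (Y × Bool))} {Hid : List Y → Prop}
    (hA : Good A Hid) (q : Q) (u v : List (XX (Y × Bool))) (h : Rel Hid u v) :
    Rel Hid (A.act q u) (A.act q v) := by
  induction h with
  | nil => exact Rel.nil
  | snoc u v x x' huv h1 h2 ih =>
    rw [Aut.act_snoc, Aut.act_snoc, ← hA.dst_eq q u v huv.map_vis]
    rcases h2 with h2 | h2
    · rw [← eq_of_vis x x' h2 h1]
      exact Rel.snoc _ _ _ _ ih rfl (Or.inl rfl)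
    · refine Rel.snoc _ _ _ _ ih (hA.out q u x x' h1 h2) (Or.inr ?_)
      rw [← Aut.act_snoc]
      exact hA.inv _ _ h2

theorem exists_normal (Hid : List Y → Prop) (v : List (XX (Y × Bool))) :
    ∃ u, Rel Hid u v ∧ ∀ u₁ x, u₁ ++ [x] <+: u → Hid (ytr (u₁ ++ [x])) → x.1.2 = false := by
  classical
  induction v using List.reverseRecOn with
  | nil => exact ⟨[], Rel.nil, fun u₁ x h => by simp at h⟩
  | append_singleton v x ih =>
    obtain ⟨u, huv, hu⟩ := ih
    have key : ∀ x' : XX (Y × Bool), (Hid (ytr (u ++ [x'])) → x'.1.2 = false) →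
        ∀ u₁ y, u₁ ++ [y] <+: u ++ [x'] → Hid (ytr (u₁ ++ [y])) → y.1.2 = false := by
      intro x' hx' u₁ y h hH
      rcases List.prefix_concat_iff.1 h with h | h
      · obtain ⟨rfl, h2⟩ := List.append_inj' h rfl
        simp only [List.cons.injEq, and_true] at h2
        subst h2
        exact hx' hH
      · exact hu _ _ h hH
    by_cases h : Hid (ytr (u ++ [x]))
    · refine ⟨u ++ [((x.1.1, false), x.2)], Rel.snoc _ _ _ _ huv rfl (Or.inr ?_),
        key _ (fun _ => rfl)⟩
      rw [ytr_append] at h ⊢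
      exact h
    · exact ⟨u ++ [x], Rel.snoc _ _ _ _ huv rfl (Or.inl rfl), key _ (fun h' => absurd h' h)⟩

theorem Good.upper [Fintype Y] {Q : Type} {A : Aut Q (XX (Y × Bool))} {Hid : List Y → Prop}
    (hA : Good A Hid) (w₀ : List Y) (y₀ : Y) (h₀ : ∀ u, Hid (u ++ (w₀ ++ [y₀]))) :
    ∃ w : List (XX (Y × Bool)), w ≠ [] ∧ ∀ n, (A.Lset n).ncard ≤
      (Fintype.card (XX (Y × Bool)) ^ n) ^ (Aut.Avoid w n).ncard := by
  let lift : Y → XX (Y × Bool) := fun y => ((y, true), false, 0)
  refine ⟨w₀.map lift ++ [lift y₀], by simp, fun n => ?_⟩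
  refine A.ncard_Lset_le_avoid (fun x => x.1.2) vis eq_of_vis hA.hid (Rel Hid) hA.rel_act
    (fun _ _ h => h.map_vis) _ (fun v => ?_) n
  obtain ⟨u, huv, hu⟩ := exists_normal Hid v
  refine ⟨u, huv, ?_⟩
  rintro ⟨s, t, rfl⟩
  have := hu (s ++ w₀.map lift) (lift y₀) ⟨t, by simp⟩ (by
    have h1 : ytr (s ++ w₀.map lift ++ [lift y₀]) = ytr s ++ (w₀ ++ [y₀]) := by
      simp [ytr, lift, Function.comp_def]
    rw [h1]; exact h₀ _)
  simp [lift] at this

end comp

section big

variable {Y P S₁ S₂ : Type} (AP : Aut P Y) (C₁ : Chk S₁ Y) (C₂ : Chk S₂ Y)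

/-- The part of the automaton that does not depend on the input. -/
noncomputable def Fix : Aut (Bool ⊕ (Bool × A5) ⊕ (Y × Fin 5) ⊕ P ⊕ S₁) (XX (Y × Bool)) :=
  (Atau Y).sum ((Agate Y).sum ((Atest Y).sum ((Amv AP).sum (Arev C₁))))

/-- The whole automaton. -/
noncomputable def Big : Aut ((Bool ⊕ (Bool × A5) ⊕ (Y × Fin 5) ⊕ P ⊕ S₁) ⊕ S₂) (XX (Y × Bool)) :=
  (Fix AP C₁).sum (Arev C₂)

theorem Big_upper [Fintype Y] (Hid : List Y → Prop) (hP : ∀ p w, Hid w → Hid (AP.act p w))
    (h₁ : ∀ w, Hid w → ¬ C₁.Rev w) (h₂ : ∀ w, Hid w → ¬ C₂.Rev w)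
    (w₀ : List Y) (y₀ : Y) (h₀ : ∀ u, Hid (u ++ (w₀ ++ [y₀]))) :
    ∃ w : List (XX (Y × Bool)), w ≠ [] ∧ ∀ n, ((Big AP C₁ C₂).Lset n).ncard ≤
      (Fintype.card (XX (Y × Bool)) ^ n) ^ (Aut.Avoid w n).ncard :=
  Good.upper (Hid := Hid) (((good_Atau Hid).sum ((good_Agate Hid).sum ((good_Atest Hid).sum
    ((good_Amv AP Hid hP).sum (good_Arev C₁ Hid h₁))))).sum (good_Arev C₂ Hid h₂)) w₀ y₀ h₀

theorem Arev_sep {S : Type} (C : Chk S Y) (u : List (XX (Y × Bool))) (x x' : XX (Y × Bool))
    (h : vis x = vis x') (he : x.1.2 ≠ x'.1.2) (hR : C.Rev (ytr (u ++ [x]))) :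
    ∃ s, addr ((Arev C).act s (u ++ [x])) ≠ addr ((Arev C).act s (u ++ [x'])) := by
  obtain ⟨s, u', y, h1, h2⟩ := hR
  rw [ytr_append] at h1
  obtain ⟨rfl, h3⟩ := List.append_inj' h1 rfl
  simp only [ytr_cons, ytr_nil, List.cons.injEq, and_true] at h3
  subst h3
  refine ⟨s, ?_⟩
  rw [Aut.act_snoc, Aut.act_snoc, addr_append, addr_append, Arev_dst]
  simp only [Arev, flipIf_apply, ← (vis_eq h).1, ← (vis_eq h).2, h2, addr_cons, addr_nil]
  intro h4
  simp only [List.append_cancel_left_eq, List.cons.injEq, and_true] at h4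
  revert h4 he
  cases x.1.2 <;> cases x'.1.2 <;> simp

theorem Big_lower [Fintype Y]
    (hrev : ∀ (u : List Y) (y : Y), ∃ ps : List P,
      C₁.Rev (AP.actL ps (u ++ [y])) ∨ C₂.Rev (AP.actL ps (u ++ [y])))
    (n : ℕ) (hn : 1 ≤ n) :
    2 ^ (Fintype.card (XX (Y × Bool)) ^ n) ≤ ((Big AP C₁ C₂).Lset (n + 1)).ncard := by
  classical
  apply two_pow_le_ncard_Lset _ _ _ _ _ n hn
  · rintro ((q | q | q | q | q) | q)
    · exact ⟨1, fun x => rfl⟩
    · exact ⟨if q.1 then q.2 else 1, fun x => rfl⟩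
    · exact ⟨1, fun x => rfl⟩
    · exact ⟨1, fun x => rfl⟩
    · exact ⟨1, fun x => rfl⟩
    · exact ⟨1, fun x => rfl⟩
  · refine ⟨Sum.inl (Sum.inl true), fun w => ?_⟩
    simp only [Big, Fix, Aut.sum_act_inl, Atau_true]
  · intro a
    refine ⟨Sum.inl (Sum.inr (Sum.inl (false, a))), fun w => ?_⟩
    simp only [Big, Fix, Aut.sum_act_inl, Aut.sum_act_inr, Agate_false]
  · intro c x x' hx
    by_cases h1 : x.2.1 = x'.2.1
    swap
    · exact ⟨[], by simpa [addr_append] using h1⟩
    by_cases h2 : x.1.1 = x'.1.1 ∧ x.2.2 = x'.2.2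
    swap
    · refine ⟨[Sum.inl (Sum.inr (Sum.inr (Sum.inl (x.1.1, x.2.2))))], ?_⟩
      simp only [Big, Fix, Aut.actL_cons, Aut.actL_nil, Aut.sum_act_inl, Aut.sum_act_inr]
      simp only [Aut.act_snoc, addr_append]
      have h3 : (Atest Y).dst (x.1.1, x.2.2) c = (x.1.1, x.2.2) := by
        generalize (x.1.1, x.2.2) = t
        induction c with
        | nil => rfl
        | cons y c ih => exact ih
      have h4 : ¬ (x'.1.1 = x.1.1 ∧ x'.2.2 = x.2.2) := fun h => h2 ⟨h.1.symm, h.2.symm⟩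
      rw [h3]
      simp only [Atest, flipIf_apply, addr_cons, addr_nil, h1, h4]
      simp
    have hv : vis x = vis x' := by
      simp only [vis, Prod.mk.injEq]
      exact ⟨h2.1, Prod.ext h1 h2.2⟩
    have he : x.1.2 ≠ x'.1.2 := fun h => hx (eq_of_vis _ _ h hv)
    obtain ⟨ps, hps⟩ := hrev (ytr c) x.1.1
    let inj : P → (Bool ⊕ (Bool × A5) ⊕ (Y × Fin 5) ⊕ P ⊕ S₁) ⊕ S₂ := fun p =>
      Sum.inl (Sum.inr (Sum.inr (Sum.inr (Sum.inl p))))
    have hmv : ∀ (ps : List P) w,
        (Big AP C₁ C₂).actL (ps.map inj) w = (Amv AP).actL ps w := by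
      intro ps w
      induction ps with
      | nil => rfl
      | cons p ps ih =>
        simp only [List.map_cons, Aut.actL_cons, ih]
        simp only [Big, Fix, inj, Aut.sum_act_inl, Aut.sum_act_inr]
    have hy : ∀ (ps : List P) w, ytr ((Amv AP).actL ps w) = AP.actL ps (ytr w) := by
      intro ps w
      induction ps with
      | nil => rfl
      | cons p ps ih => simp only [Aut.actL_cons, Amv_ytr, ih]
    have hlab : ∀ (ps : List P), vis ((Amv AP).lab ps c x) = vis ((Amv AP).lab ps c x') ∧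
        ((Amv AP).lab ps c x).1.2 = x.1.2 ∧ ((Amv AP).lab ps c x').1.2 = x'.1.2 := by
      intro ps
      induction ps with
      | nil => exact ⟨hv, rfl, rfl⟩
      | cons p ps ih =>
        refine ⟨?_, ih.2.1, ih.2.2⟩
        simp only [Aut.lab, Perm.mul_apply]
        have := vis_eq ih.1
        generalize (Amv AP).lab ps c x = a at this
        generalize (Amv AP).lab ps c x' = b at this
        simp [Amv, vis, this.1, this.2]
    have hyc : AP.actL ps (ytr c ++ [x.1.1]) =
        ytr ((Amv AP).actL ps c ++ [(Amv AP).lab ps c x]) := by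
      rw [← Aut.actL_snoc, hy, ytr_append]; rfl
    have he' : ((Amv AP).lab ps c x).1.2 ≠ ((Amv AP).lab ps c x').1.2 := by
      rw [(hlab ps).2.1, (hlab ps).2.2]; exact he
    rw [hyc] at hps
    rcases hps with hps | hps
    · obtain ⟨s, hs⟩ := Arev_sep C₁ _ _ _ (hlab ps).1 he' hps
      refine ⟨Sum.inl (Sum.inr (Sum.inr (Sum.inr (Sum.inr s)))) :: ps.map inj, ?_⟩
      rw [Aut.actL_cons, Aut.actL_cons, hmv, hmv, Aut.actL_snoc, Aut.actL_snoc]
      simpa only [Big, Fix, Aut.sum_act_inl, Aut.sum_act_inr] using hs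
    · obtain ⟨s, hs⟩ := Arev_sep C₂ _ _ _ (hlab ps).1 he' hps
      refine ⟨Sum.inr s :: ps.map inj, ?_⟩
      rw [Aut.actL_cons, Aut.actL_cons, hmv, hmv, Aut.actL_snoc, Aut.actL_snoc]
      simpa only [Big, Fix, Aut.sum_act_inl, Aut.sum_act_inr] using hs

end big

end Pool.Agent.P.MP_4ffd61_al
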