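import Mathlib

/-! Limits of the quotients that define the dimension. -/

set_option autoImplicit false

namespace Pool.Agent.P.MP_4ffd61_al

open Filter Topology

/-- The quotient whose lower limit is the dimension. -/
noncomputable def ratio (m : ℕ) (a : ℕ → ℕ) (n : ℕ) : ℝ :=
  Real.log (a n : ℝ) / ((((m : ℝ) ^ n - 1) / ((m : ℝ) - 1)) * Real.log ((m.factorial : ℕ) : ℝ))

theorem log_factorial_pos {m : ℕ} (hm : 2 ≤ m) : 0 < Real.log ((m.factorial : ℕ) : ℝ) := by
  apply Real.log_pos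
  have : 2 ≤ m.factorial := hm.trans (Nat.self_le_factorial m)
  exact_mod_cast this

theorem log_nat_le {a b : ℕ} (h : a ≤ b) : Real.log a ≤ Real.log b := by
  rcases Nat.eq_zero_or_pos a with rfl | ha
  · simpa using Real.log_natCast_nonneg b
  · exact Real.log_le_log (by exact_mod_cast ha) (by exact_mod_cast h)

theorem liminf_ratio_ge {m : ℕ} (hm : 2 ≤ m) (a : ℕ → ℕ)
    (hub : ∀ n, a n ≤ (m + 1) ^ (∑ i ∈ Finset.range n, m ^ (i + 1)))
    (hlb : ∀ k, 1 ≤ k → 2 ^ (m ^ k) ≤ a (k + 1)) :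
    Real.log 2 / (m * Real.log ((m.factorial : ℕ) : ℝ)) ≤ liminf (ratio m a) atTop := by
  have hL := log_factorial_pos hm
  have hm' : (2 : ℝ) ≤ m := by exact_mod_cast hm
  have hgeo : ∀ n, ((m : ℝ) ^ n - 1) / ((m : ℝ) - 1) = ∑ i ∈ Finset.range n, (m : ℝ) ^ i := by
    intro n; rw [geom_sum_eq (by linarith)]
  apply le_liminf_of_le
  · refine IsCoboundedUnder.of_frequently_le
      (a := m * Real.log (m + 1) / Real.log ((m.factorial : ℕ) : ℝ)) (Frequently.of_forall ?_)
    intro n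
    have hlog : 0 ≤ Real.log (m + 1) := Real.log_nonneg (by linarith)
    rw [ratio, hgeo]
    have h1 := log_nat_le (hub n)
    push_cast at h1
    rw [Real.log_pow] at h1
    push_cast at h1
    have h2 : ∑ i ∈ Finset.range n, (m : ℝ) ^ (i + 1) = m * ∑ i ∈ Finset.range n, (m : ℝ) ^ i := by
      rw [Finset.mul_sum]; exact Finset.sum_congr rfl fun i _ => by ring
    rw [h2] at h1
    have h3 : 0 ≤ ∑ i ∈ Finset.range n, (m : ℝ) ^ i := Finset.sum_nonneg fun i _ => by positivity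
    rcases h3.eq_or_lt with h3 | h3
    · rw [← h3]; simp; positivity
    · rw [div_le_div_iff₀ (by positivity) hL]
      nlinarith [mul_le_mul_of_nonneg_right h1 hL.le]
  · filter_upwards [eventually_ge_atTop 2] with n hn
    obtain ⟨k, rfl⟩ : ∃ k, n = k + 1 := ⟨n - 1, by omega⟩
    have h1 := log_nat_le (hlb k (by omega))
    push_cast at h1
    rw [Real.log_pow] at h1
    push_cast at h1
    have hp : (1 : ℝ) < (m : ℝ) ^ (k + 1) := one_lt_pow₀ (by linarith) (by omega)
    have h2 : 0 < ((m : ℝ) ^ (k + 1) - 1) / ((m : ℝ) - 1) := div_pos (by linarith) (by linarith)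
    have h3 : ((m : ℝ) ^ (k + 1) - 1) / ((m : ℝ) - 1) ≤ (m : ℝ) ^ (k + 1) := by
      rw [div_le_iff₀ (by linarith)]; nlinarith
    have hl2 : 0 < Real.log 2 := Real.log_pos (by norm_num)
    rw [ratio, div_le_div_iff₀ (by positivity) (by positivity)]
    calc Real.log 2 * (((m : ℝ) ^ (k + 1) - 1) / ((m : ℝ) - 1) * Real.log (m.factorial : ℕ))
        ≤ Real.log 2 * ((m : ℝ) ^ (k + 1) * Real.log (m.factorial : ℕ)) := by gcongr
      _ = ((m : ℝ) ^ k * Real.log 2) * (m * Real.log (m.factorial : ℕ)) := by ring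
      _ ≤ _ := by gcongr

theorem liminf_ratio_zero {m : ℕ} (hm : 2 ≤ m) (a N : ℕ → ℕ) (l : ℕ) (hl : 1 ≤ l)
    (h1 : ∀ n, a n ≤ (m ^ n) ^ N n) (h2 : ∀ n, N n ≤ m ^ n)
    (h3 : ∀ n, N (n + l) ≤ N n * (m ^ l - 1)) : liminf (ratio m a) atTop = 0 := by
  have hL := log_factorial_pos hm
  have hm' : (2 : ℝ) ≤ m := by exact_mod_cast hm
  set r : ℝ := ((m : ℝ) ^ l - 1) / (m : ℝ) ^ l with hr
  have hp : (1 : ℝ) ≤ (m : ℝ) ^ l := one_le_pow₀ (by linarith)
  have hr0 : 0 ≤ r := div_nonneg (by linarith) (by positivity)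
  have hr1 : r < 1 := by rw [hr, div_lt_one (by positivity)]; linarith
  have hN : ∀ q s : ℕ, (N (s + q * l) : ℝ) ≤ r ^ q * (m : ℝ) ^ (s + q * l) := by
    intro q s
    induction q with
    | zero => simpa using (by exact_mod_cast h2 s : (N s : ℝ) ≤ (m : ℝ) ^ s)
    | succ q ih =>
      have e : s + (q + 1) * l = s + q * l + l := by ring
      have h4 : (N (s + q * l + l) : ℝ) ≤ N (s + q * l) * ((m : ℝ) ^ l - 1) := by
        have := h3 (s + q * l)
        have h5 : 1 ≤ m ^ l := Nat.one_le_pow _ _ (by omega)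
        exact_mod_cast this
      have h6 : (m : ℝ) ^ l - 1 = r * (m : ℝ) ^ l := by rw [hr]; field_simp
      rw [e]
      calc (N (s + q * l + l) : ℝ) ≤ N (s + q * l) * ((m : ℝ) ^ l - 1) := h4
        _ ≤ (r ^ q * (m : ℝ) ^ (s + q * l)) * ((m : ℝ) ^ l - 1) := by gcongr
        _ = _ := by rw [h6]; ring
  have hN' : ∀ n : ℕ, (N n : ℝ) ≤ r ^ (n / l) * (m : ℝ) ^ n := by
    intro n
    have := hN (n / l) (n % l)
    rwa [Nat.mod_add_div'] at this
  apply Tendsto.liminf_eq
  set C : ℝ := l * (m * Real.log m / Real.log ((m.factorial : ℕ) : ℝ)) with hC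
  have hlim : Tendsto (fun n : ℕ => C * (((n / l : ℕ) : ℝ) * r ^ (n / l) + r ^ (n / l))) atTop
      (𝓝 0) := by
    have t1 := (tendsto_self_mul_const_pow_of_lt_one hr0 hr1).add
      (tendsto_pow_atTop_nhds_zero_of_lt_one hr0 hr1)
    have t2 := t1.comp (Nat.tendsto_div_const_atTop (n := l) (by omega))
    simpa using t2.const_mul C
  refine tendsto_of_tendsto_of_tendsto_of_le_of_le' tendsto_const_nhds hlim ?_ ?_
  · refine Eventually.of_forall fun n => div_nonneg (Real.log_natCast_nonneg _) ?_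
    have : (1 : ℝ) ≤ (m : ℝ) ^ n := one_le_pow₀ (by linarith)
    exact mul_nonneg (div_nonneg (by linarith) (by linarith)) hL.le
  · filter_upwards [eventually_ge_atTop 1] with n hn
    have h4 := log_nat_le (h1 n)
    push_cast at h4
    rw [Real.log_pow, Real.log_pow] at h4
    have hlogm : 0 ≤ Real.log m := Real.log_natCast_nonneg m
    have hmn : (m : ℝ) ≤ (m : ℝ) ^ n := le_self_pow₀ (by linarith) (by omega)
    have h5 : (m : ℝ) ^ n / m ≤ ((m : ℝ) ^ n - 1) / ((m : ℝ) - 1) := by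
      rw [div_le_div_iff₀ (by linarith) (by linarith)]; nlinarith
    have h6 : (n : ℝ) ≤ l * (((n / l : ℕ) : ℝ) + 1) := by
      have := Nat.lt_mul_div_succ n (by omega : 0 < l)
      exact_mod_cast this.le
    have hpos : 0 < (m : ℝ) ^ n / m := by positivity
    calc ratio m a n ≤ (N n * (n * Real.log m)) /
          (((m : ℝ) ^ n / m) * Real.log ((m.factorial : ℕ) : ℝ)) := by
          rw [ratio]
          gcongr
      _ ≤ ((r ^ (n / l) * (m : ℝ) ^ n) * ((l * (((n / l : ℕ) : ℝ) + 1)) * Real.log m)) /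
          (((m : ℝ) ^ n / m) * Real.log ((m.factorial : ℕ) : ℝ)) := by
          gcongr
          exact hN' n
      _ = _ := by rw [hC]; field_simp

end Pool.Agent.P.MP_4ffd61_al
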