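import Pool.Agent.P.MP_4ffd61_al.TM
import Pool.Agent.P.MP_4ffd61_al.Ratio

/-! Tables of the automata and their computability. -/

set_option autoImplicit false

namespace Pool.Agent.P.MP_4ffd61_al

/-- The action of state `q` of a table on a word. -/
def tact (tab : List (List (ℕ × ℕ))) (w : List ℕ) (q : ℕ) : List ℕ :=
  List.foldr (fun (x : ℕ) (ih : ℕ → List ℕ) (p : ℕ) =>
      ((tab.getD p []).getD x (0, 0)).2 :: ih ((tab.getD p []).getD x (0, 0)).1)
    (fun _ : ℕ => ([] : List ℕ)) w q

/-- The maps induced on level `n` by a table. -/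
def tset (m : ℕ) (tab : List (List (ℕ × ℕ))) (n : ℕ) :
    Set ({w : List ℕ // w.length = n ∧ ∀ x ∈ w, x < m} → List ℕ) :=
  {h | ∃ g ∈ Submonoid.closure {g : Function.End (List ℕ) | ∃ q < tab.length, ∀ w : List ℕ,
      g w = tact tab w q}, ∀ w, h w = g w.1}

section transfer

variable {Q X : Type} (A : Aut Q X) {m : ℕ} (e : X ≃ Fin m) (enc : Q → ℕ)

/-- The row of a state. -/
def rowOf (q : Q) : List (ℕ × ℕ) :=
  List.ofFn fun i : Fin m => (enc (A.nx q (e.symm i)), (e (A.out q (e.symm i)) : ℕ))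

variable (tab : List (List (ℕ × ℕ))) (h1 : ∀ q, enc q < tab.length)
  (h2 : ∀ i < tab.length, ∃ q, enc q = i) (h3 : ∀ q, tab.getD (enc q) [] = rowOf A e enc q)

include h1 h2 h3 in
theorem tab_valid : ∀ row ∈ tab, row.length = m ∧ (∀ p ∈ row, p.1 < tab.length ∧ p.2 < m) ∧
    (row.map Prod.snd).Nodup := by
  intro row hrow
  obtain ⟨i, hi, rfl⟩ := List.getElem_of_mem hrow
  obtain ⟨q, rfl⟩ := h2 i hi
  have := h3 q
  rw [List.getD_eq_getElem _ _ hi] at this
  rw [this, rowOf]
  refine ⟨by simp, ?_, ?_⟩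
  · intro p hp
    obtain ⟨j, rfl⟩ := List.mem_ofFn.1 hp
    exact ⟨h1 _, Fin.isLt _⟩
  · rw [List.map_ofFn, List.nodup_ofFn]
    intro i j hij
    simpa using Fin.ext hij

include h3 in
theorem tact_eq (q : Q) (w : List X) :
    tact tab (w.map fun x => (e x : ℕ)) (enc q) = (A.act q w).map fun x => (e x : ℕ) := by
  induction w generalizing q with
  | nil => rfl
  | cons x w ih =>
    have h : (tab.getD (enc q) []).getD (e x) (0, 0) = (enc (A.nx q x), (e (A.out q x) : ℕ)) := by
      rw [h3, rowOf, List.getD_eq_getElem _ _ (by simp)]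
      simp
    have := ih (A.nx q x)
    simp only [tact, List.map_cons, List.foldr_cons, h, Aut.act_cons] at this ⊢
    rw [this]

include h1 h2 h3 in
theorem ncard_tset (n : ℕ) : (tset m tab n).ncard = (A.Lset n).ncard := by
  let e' : X → ℕ := fun x => (e x : ℕ)
  have he' : Function.Injective e' := fun x y h => e.injective (Fin.ext h)
  let dec : {w : List ℕ // w.length = n ∧ ∀ x ∈ w, x < m} → W X n := fun w =>
    ⟨w.1.pmap (fun x hx => e.symm ⟨x, hx⟩) w.2.2, by simp [w.2.1]⟩
  have hdec : ∀ w, (dec w).1.map e' = w.1 := by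
    intro w
    simp [dec, e', List.map_pmap]
  have hsurj : Function.Surjective dec := by
    intro v
    refine ⟨⟨v.1.map e', by simp [v.2], ?_⟩, Subtype.ext (he'.list_map ?_)⟩
    · intro x hx
      obtain ⟨y, -, rfl⟩ := List.mem_map.1 hx
      exact Fin.isLt _
    · rw [hdec]
  let Φ : (W X n → W X n) → ({w : List ℕ // w.length = n ∧ ∀ x ∈ w, x < m} → List ℕ) :=
    fun h w => (h (dec w)).1.map e'
  have hΦ : Function.Injective Φ := by
    intro h h' hh
    funext v
    obtain ⟨w, rfl⟩ := hsurj v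
    exact Subtype.ext (he'.list_map (congrFun hh w))
  have : tset m tab n = Φ '' A.Lset n := by
    ext h
    constructor
    · rintro ⟨g, hg, hh⟩
      have : ∃ qs : List Q, ∀ w : List X, g (w.map e') = (A.actL qs w).map e' := by
        clear hh
        induction hg using Submonoid.closure_induction with
        | mem g hg =>
          obtain ⟨i, hi, hg⟩ := hg
          obtain ⟨q, rfl⟩ := h2 i hi
          exact ⟨[q], fun w => by rw [hg]; exact tact_eq A e enc tab h3 q w⟩
        | one => exact ⟨[], fun w => rfl⟩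
        | mul g g' _ _ ih ih' =>
          obtain ⟨qs, hq⟩ := ih
          obtain ⟨rs, hr⟩ := ih'
          refine ⟨qs ++ rs, fun w => ?_⟩
          rw [Aut.actL_append, ← hq, ← hr]
          rfl
      obtain ⟨qs, hq⟩ := this
      refine ⟨fun v => ⟨A.actL qs v.1, by simp [v.2]⟩, ⟨qs, fun _ => rfl⟩, funext fun w => ?_⟩
      rw [hh, ← hdec w, hq]
    · rintro ⟨h', ⟨qs, hq⟩, rfl⟩
      have : ∃ g ∈ Submonoid.closure {g : Function.End (List ℕ) | ∃ q < tab.length, ∀ w : List ℕ,
          g w = tact tab w q}, ∀ w : List X, g (w.map e') = (A.actL qs w).map e' := by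
        clear hq
        induction qs with
        | nil => exact ⟨1, one_mem _, fun w => rfl⟩
        | cons q qs ih =>
          obtain ⟨g, hg, h⟩ := ih
          let g₀ : Function.End (List ℕ) := fun w => tact tab w (enc q)
          refine ⟨g₀ * g, mul_mem (Submonoid.subset_closure ⟨enc q, h1 q, fun _ => rfl⟩) hg,
            fun w => ?_⟩
          change tact tab (g _) _ = _
          rw [h]
          exact tact_eq A e enc tab h3 q _
      obtain ⟨g, hg, h⟩ := this
      refine ⟨g, hg, fun w => ?_⟩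
      simp only [Φ]
      rw [hq, ← h, hdec]
  rw [this, Set.ncard_image_of_injective _ hΦ]

end transfer

theorem primrec_cstep : Primrec (fun p : (ℕ × ℕ) × Bool × Bool × Bool × Bool =>
    cstep p.1.1 p.1.2 p.2.1 p.2.2.1 p.2.2.2.1 p.2.2.2.2) := by
  have hn : Primrec (fun p : (ℕ × ℕ) × Bool × Bool × Bool × Bool => p.1.1) :=
    Primrec.fst.comp Primrec.fst
  have hj : Primrec (fun p : (ℕ × ℕ) × Bool × Bool × Bool × Bool => p.1.2) :=
    Primrec.snd.comp Primrec.fst
  have hadd : ∀ k : ℕ, Primrec (fun p : (ℕ × ℕ) × Bool × Bool × Bool × Bool => p.1.1 + k) :=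
    fun k => Primrec.nat_add.comp hn (Primrec.const k)
  have b1 : PrimrecPred (fun p : (ℕ × ℕ) × Bool × Bool × Bool × Bool => p.2.1 = true) :=
    Primrec.eq.comp (Primrec.fst.comp Primrec.snd) (Primrec.const true)
  have b2 : PrimrecPred (fun p : (ℕ × ℕ) × Bool × Bool × Bool × Bool => p.2.2.1 = true) :=
    Primrec.eq.comp (Primrec.fst.comp (Primrec.snd.comp Primrec.snd)) (Primrec.const true)
  have b3 : PrimrecPred (fun p : (ℕ × ℕ) × Bool × Bool × Bool × Bool => p.2.2.2.1 = true) :=
    Primrec.eq.comp (Primrec.fst.comp (Primrec.snd.comp (Primrec.snd.comp Primrec.snd)))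
      (Primrec.const true)
  have b4 : PrimrecPred (fun p : (ℕ × ℕ) × Bool × Bool × Bool × Bool => p.2.2.2.2 = true) :=
    Primrec.eq.comp (Primrec.snd.comp (Primrec.snd.comp (Primrec.snd.comp Primrec.snd)))
      (Primrec.const true)
  unfold cstep
  exact Primrec.ite (Primrec.eq.comp hj (hadd 3)) (hadd 3) <|
    Primrec.ite (Primrec.eq.comp hj (hadd 2)) (hadd 2) <|
    Primrec.ite b1 (Primrec.ite (Primrec.eq.comp hj (hadd 1)) (hadd 2) (hadd 3)) <|
    Primrec.ite (Primrec.eq.comp hj (Primrec.const 0))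
      (Primrec.ite b2 (Primrec.const 1) (hadd 3)) <|
    Primrec.ite (Primrec.nat_le.comp hj hn)
      (Primrec.ite b3 (Primrec.nat_add.comp hj (Primrec.const 1)) (hadd 3))
      (Primrec.ite b4 (hadd 1) (hadd 3))

/-- The table built from a fixed part, a lookup list and the input. -/
def mkTab (m : ℕ) (tabF : List (List (ℕ × ℕ))) (G : List (Bool × (Bool × Bool × Bool × Bool) × ℕ))
    (n : ℕ) : List (List (ℕ × ℕ)) :=
  tabF ++ (List.range (n + 4)).map fun j => (List.range m).map fun i =>
    (tabF.length + (if (G.getD i default).1 = true then 0 else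
        cstep n j (G.getD i default).2.1.1 (G.getD i default).2.1.2.1
          (G.getD i default).2.1.2.2.1 (G.getD i default).2.1.2.2.2),
      if j = n + 1 ∨ j = n + 2 then i else (G.getD i default).2.2)

theorem primrec_mkTab (m : ℕ) (tabF : List (List (ℕ × ℕ)))
    (G : List (Bool × (Bool × Bool × Bool × Bool) × ℕ)) : Primrec (mkTab m tabF G) := by
  have hG : Primrec (fun p : (ℕ × ℕ) × ℕ => G.getD p.2 default) :=
    (Primrec.list_getD default).comp (Primrec.const G) Primrec.snd
  have hn : Primrec (fun p : (ℕ × ℕ) × ℕ => p.1.1) := Primrec.fst.comp Primrec.fst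
  have hj : Primrec (fun p : (ℕ × ℕ) × ℕ => p.1.2) := Primrec.snd.comp Primrec.fst
  have h1 : Primrec (fun p : (ℕ × ℕ) × ℕ =>
      (tabF.length + (if (G.getD p.2 default).1 = true then 0 else
        cstep p.1.1 p.1.2 (G.getD p.2 default).2.1.1 (G.getD p.2 default).2.1.2.1
          (G.getD p.2 default).2.1.2.2.1 (G.getD p.2 default).2.1.2.2.2),
      if p.1.2 = p.1.1 + 1 ∨ p.1.2 = p.1.1 + 2 then p.2 else (G.getD p.2 default).2.2)) := by
    refine Primrec.pair (Primrec.nat_add.comp (Primrec.const _) ?_) ?_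
    · exact Primrec.ite (Primrec.eq.comp (Primrec.fst.comp hG) (Primrec.const true))
        (Primrec.const 0)
        (primrec_cstep.comp (Primrec.fst.pair (Primrec.fst.comp (Primrec.snd.comp hG))))
    · exact Primrec.ite
        ((Primrec.eq.comp hj (Primrec.nat_add.comp hn (Primrec.const 1))).or
          (Primrec.eq.comp hj (Primrec.nat_add.comp hn (Primrec.const 2))))
        Primrec.snd (Primrec.snd.comp (Primrec.snd.comp hG))
  exact Primrec.list_append.comp (Primrec.const tabF)
    (Primrec.list_map (Primrec.list_range.comp (Primrec.nat_add.comp Primrec.id (Primrec.const 4)))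
      (Primrec.list_map (Primrec.const (List.range m)) h1.to₂).to₂)

theorem exists_tables {T : Type} [Fintype T] (D : TS T) :
    ∃ tab : ℕ → List (List (ℕ × ℕ)), Primrec tab ∧ ∀ n,
      (∀ row ∈ tab n, row.length = Fintype.card (XX (YY T × Bool)) ∧
        (∀ p ∈ row, p.1 < (tab n).length ∧ p.2 < Fintype.card (XX (YY T × Bool))) ∧
        (row.map Prod.snd).Nodup) ∧
      ∀ k, (tset (Fintype.card (XX (YY T × Bool))) (tab n) k).ncard =
        ((TAut D n).Lset k).ncard := by
  classical
  set m := Fintype.card (XX (YY T × Bool)) with hm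
  let e : XX (YY T × Bool) ≃ Fin m := Fintype.equivFin _
  let F := Bool ⊕ (Bool × A5) ⊕ (YY T × Fin 5) ⊕ Bool ⊕
    (Unit ⊕ ((T ⊕ Bool) × Bool) ⊕ (Option (Option T) × Option T × Bool))
  let AF : Aut F (XX (YY T × Bool)) := Fix (Aodo T) (CFix D)
  let eF : F ≃ Fin (Fintype.card F) := Fintype.equivFin _
  let tabF : List (List (ℕ × ℕ)) :=
    List.ofFn fun i : Fin (Fintype.card F) => rowOf AF e (fun q => (eF q : ℕ)) (eF.symm i)
  have hF : tabF.length = Fintype.card F := by simp [tabF]
  let G : List (Bool × (Bool × Bool × Bool × Bool) × ℕ) :=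
    List.ofFn fun i : Fin m => (isEnd (e.symm i).1.1, cls D (e.symm i).1.1,
      (e (flipIf (fun x => isEnd x.1.1 && x.1.2) (e.symm i)) : ℕ))
  refine ⟨mkTab m tabF G, primrec_mkTab _ _ _, fun n => ?_⟩
  let enc : F ⊕ Fin (n + 4) → ℕ := Sum.elim (fun q => (eF q : ℕ)) (fun j => tabF.length + j)
  have hlen : (mkTab m tabF G n).length = tabF.length + (n + 4) := by simp [mkTab]
  have h1 : ∀ q, enc q < (mkTab m tabF G n).length := by
    rintro (q | j)
    · have := (eF q).2
      simp only [enc, Sum.elim_inl]; omega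
    · have := j.2
      simp only [enc, Sum.elim_inr]; omega
  have h2 : ∀ i < (mkTab m tabF G n).length, ∃ q, enc q = i := by
    intro i hi
    by_cases h : i < Fintype.card F
    · exact ⟨Sum.inl (eF.symm ⟨i, h⟩), by simp [enc]⟩
    · exact ⟨Sum.inr ⟨i - tabF.length, by omega⟩, by simp only [enc, Sum.elim_inr]; omega⟩
  have h3 : ∀ q, (mkTab m tabF G n).getD (enc q) [] = rowOf (TAut D n) e enc q := by
    rintro (q | j)
    · simp only [enc, Sum.elim_inl, mkTab]
      rw [List.getD_append _ _ _ _ (by rw [hF]; exact (eF q).2),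
        List.getD_eq_getElem _ _ (by rw [hF]; exact (eF q).2)]
      simp only [tabF, List.getElem_ofFn, Fin.eta, Equiv.symm_apply_apply]
      rfl
    · simp only [enc, Sum.elim_inr, mkTab]
      rw [List.getD_append_right _ _ _ _ (by omega), Nat.add_sub_cancel_left,
        List.getD_eq_getElem _ _ (by simp)]
      simp only [List.getElem_map, List.getElem_range, rowOf]
      apply List.ext_getElem (by simp)
      intro i hi1 hi2
      have hi : i < m := by simpa using hi1
      have hG : G.getD i default = (isEnd (e.symm ⟨i, hi⟩).1.1, cls D (e.symm ⟨i, hi⟩).1.1,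
          (e (flipIf (fun x => isEnd x.1.1 && x.1.2) (e.symm ⟨i, hi⟩)) : ℕ)) := by
        rw [List.getD_eq_getElem _ _ (by simpa [G] using hi)]
        simp only [G, List.getElem_ofFn]
      simp only [List.getElem_map, List.getElem_range, List.getElem_ofFn, hG]
      refine Prod.ext ?_ ?_
      · change _ = tabF.length + ((CCnt D n).nx j (e.symm ⟨i, hi⟩).1.1 : ℕ)
        simp only [CCnt, blockChk]
        split_ifs <;> rfl
      · change _ = (e (flipIf (fun x => (isEnd x.1.1 && badC n j) && x.1.2) (e.symm ⟨i, hi⟩)) : ℕ)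
        simp only [badC]
        split_ifs with h
        · simp [h]
        · simp [h]
  exact ⟨tab_valid (TAut D n) e enc _ h1 h2 h3, ncard_tset (TAut D n) e enc _ h1 h2 h3⟩

theorem not_computable_dim :
    ¬ ∃ f : ℕ × List (List (ℕ × ℕ)) × ℕ → ℕ × ℕ, Computable f ∧
      ∀ (m : ℕ) (tab : List (List (ℕ × ℕ))) (k : ℕ), 2 ≤ m →
        (∀ row ∈ tab, row.length = m ∧ (∀ e ∈ row, e.1 < tab.length ∧ e.2 < m) ∧
          (row.map Prod.snd).Nodup) → 1 ≤ k →
        |((f (m, tab, k)).1 : ℝ) / (((f (m, tab, k)).2 : ℝ) + 1) -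
          Filter.liminf (ratio m fun n => (tset m tab n).ncard) Filter.atTop| ≤ (2 : ℝ)⁻¹ ^ k := by
  classical
  rintro ⟨f, hf, h⟩
  obtain ⟨T, _, D, hD⟩ := exists_TS
  obtain ⟨tab, htab, ht⟩ := exists_tables D
  set m := Fintype.card (XX (YY T × Bool)) with hm
  have : Inhabited (XX (YY T × Bool)) := ⟨(((Sum.inr true, true), true), true, 0)⟩
  have hm2 : 2 ≤ m := Fintype.one_lt_card
  set c : ℝ := Real.log 2 / (m * Real.log ((m.factorial : ℕ) : ℝ)) with hc
  have hc0 : 0 < c := by
    have := log_factorial_pos hm2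
    have : 0 < Real.log 2 := Real.log_pos (by norm_num)
    positivity
  obtain ⟨k₀, hk₀⟩ := exists_pow_lt_of_lt_one hc0 (by norm_num : (2 : ℝ)⁻¹ < 1)
  apply hD
  have hcomp : Computable fun n : ℕ => f (m, tab n, k₀ + 1) :=
    hf.comp ((Computable.const m).pair (htab.to_comp.pair (Computable.const _)))
  have hp : Primrec fun p : ℕ × ℕ => decide (p.1 * 2 ^ (k₀ + 1) ≤ p.2 + 1) :=
    (Primrec.nat_le.comp (Primrec.nat_mul.comp Primrec.fst (Primrec.const _))
      (Primrec.succ.comp Primrec.snd)).decide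
  refine ⟨Classical.decPred _, (hp.to_comp.comp hcomp).of_eq fun n => ?_⟩
  rw [decide_eq_decide]
  have h1 := h m (tab n) (k₀ + 1) hm2 (ht n).1 (by omega)
  simp only [(ht n).2] at h1
  generalize f (m, tab n, k₀ + 1) = p at h1 ⊢
  have hiff : p.1 * 2 ^ (k₀ + 1) ≤ p.2 + 1 ↔
      (p.1 : ℝ) / ((p.2 : ℝ) + 1) ≤ (2 : ℝ)⁻¹ ^ (k₀ + 1) := by
    rw [inv_pow, inv_eq_one_div, div_le_div_iff₀ (by positivity) (by positivity), one_mul]
    exact_mod_cast Iff.rfl
  rw [hiff]
  rw [abs_le] at h1
  constructor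
  · intro h2
    by_contra hV
    have h3 := liminf_ratio_ge hm2 (fun k => ((TAut D n).Lset k).ncard)
      (fun k => (TAut D n).ncard_Lset_le k) (TAut_lower D n hV)
    rw [pow_succ] at h1 h2
    linarith [h1.1]
  · intro hV
    obtain ⟨w, hw, h2⟩ := TAut_upper D n hV
    have h3 := liminf_ratio_zero hm2 (fun k => ((TAut D n).Lset k).ncard)
      (fun k => (Aut.Avoid w k).ncard) w.length (List.length_pos_iff.2 hw) h2
      (fun k => Aut.ncard_Avoid_le w k) (fun k => Aut.ncard_Avoid_add w k)
    rw [h3] at h1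
    linarith [h1.2]

end Pool.Agent.P.MP_4ffd61_al
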