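import Mathlib

/-! The binary odometer on finite words, and a lemma on perfect quotients. -/

set_option autoImplicit false

namespace Pool.Agent.P.MP_4ffd61_al

/-- The binary odometer (least significant digit first). -/
def odo : List Bool → List Bool
  | [] => []
  | false :: β => true :: β
  | true :: β => false :: odo β

@[simp] theorem odo_nil : odo [] = [] := rfl
@[simp] theorem odo_false (β : List Bool) : odo (false :: β) = true :: β := rfl
@[simp] theorem odo_true (β : List Bool) : odo (true :: β) = false :: odo β := rfl

@[simp] theorem length_odo (β : List Bool) : (odo β).length = β.length := by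
  induction β with
  | nil => rfl
  | cons b β ih => cases b <;> simp [ih]

@[simp] theorem length_odo_iter (j : ℕ) (β : List Bool) : (odo^[j] β).length = β.length := by
  induction j generalizing β with
  | zero => rfl
  | succ j ih => simp [ih]

theorem odo_injective : Function.Injective odo := by
  intro α
  induction α with
  | nil =>
    intro β h
    have := congrArg List.length h
    simpa using this.symm
  | cons a α ih =>
    intro β h
    cases β with
    | nil => have := congrArg List.length h; simp at this
    | cons b β =>
      cases a <;> cases b <;> simp at h ⊢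
      · exact h
      · exact ih h

theorem odo_iter_nil (j : ℕ) : odo^[j] [] = [] := by
  induction j with
  | zero => rfl
  | succ j ih => simp [ih]

theorem odo_iter_two_mul (j : ℕ) (b : Bool) (β : List Bool) :
    odo^[2 * j] (b :: β) = b :: odo^[j] β := by
  induction j generalizing β with
  | zero => rfl
  | succ j ih =>
    have : 2 * (j + 1) = 2 * j + 1 + 1 := by ring
    rw [this, Function.iterate_succ_apply, Function.iterate_succ_apply, Function.iterate_succ_apply]
    cases b <;> simp [ih]

theorem odo_exists_zero (β : List Bool) : ∃ j, odo^[j] β = List.replicate β.length false := by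
  induction h : β.length generalizing β with
  | zero =>
    rw [List.length_eq_zero_iff] at h
    subst h
    exact ⟨0, rfl⟩
  | succ n ih =>
    cases β with
    | nil => simp at h
    | cons b β =>
      simp only [List.length_cons, Nat.add_right_cancel_iff] at h
      cases b with
      | false =>
        obtain ⟨j, hj⟩ := ih β h
        exact ⟨2 * j, by rw [odo_iter_two_mul, hj, List.replicate_succ]⟩
      | true =>
        obtain ⟨j, hj⟩ := ih (odo β) (by simp [h])
        exact ⟨2 * j + 1, by
          rw [Function.iterate_succ_apply, odo_true, odo_iter_two_mul, hj, List.replicate_succ]⟩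

theorem odo_pow_ge (L j : ℕ) (h : L ≤ j) :
    odo^[2 ^ j] (List.replicate L false) = List.replicate L false := by
  induction L generalizing j with
  | zero => simp [odo_iter_nil]
  | succ L ih =>
    obtain ⟨j, rfl⟩ : ∃ j', j = j' + 1 := ⟨j - 1, by omega⟩
    rw [List.replicate_succ, pow_succ', odo_iter_two_mul, ih j (by omega)]

theorem odo_pow_lt (L j : ℕ) (h : j < L) :
    odo^[2 ^ j] (List.replicate L false) =
      List.replicate j false ++ true :: List.replicate (L - j - 1) false := by
  induction j generalizing L with
  | zero =>
    obtain ⟨L, rfl⟩ : ∃ L', L = L' + 1 := ⟨L - 1, by omega⟩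
    simp [List.replicate_succ]
  | succ j ih =>
    obtain ⟨L, rfl⟩ : ∃ L', L = L' + 1 := ⟨L - 1, by omega⟩
    rw [List.replicate_succ, pow_succ', odo_iter_two_mul, ih L (by omega), List.replicate_succ]
    simp

theorem eq_replicate_of_not_mem (β : List Bool) (h : true ∉ β) :
    β = List.replicate β.length false := by
  rw [List.eq_replicate_iff]
  refine ⟨rfl, fun b hb => ?_⟩
  cases b
  · rfl
  · exact absurd hb h

theorem odo_separate (α β : List Bool) (hl : β.length ≤ α.length) (hne : β ≠ α) :
    ∃ j, true ∈ odo^[j] α ∧ true ∉ odo^[j] β := by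
  obtain ⟨j, hj⟩ := odo_exists_zero β
  by_cases h : true ∈ odo^[j] α
  · exact ⟨j, h, by rw [hj]; simp⟩
  · have hα := eq_replicate_of_not_mem _ h
    rw [length_odo_iter] at hα
    rcases hl.lt_or_eq with hl | hl
    · refine ⟨2 ^ β.length + j, ?_, ?_⟩
      · rw [Function.iterate_add_apply, hα, odo_pow_lt _ _ hl]; simp
      · rw [Function.iterate_add_apply, hj, odo_pow_ge _ _ le_rfl]; simp
    · exfalso
      apply hne
      apply odo_injective.iterate j
      rw [hj, hα, hl]

/-- If finitely many normal subgroups each map onto a perfect group, so does their intersection. -/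
theorem exists_mem_iInf_of_perfect {H S ι : Type} [Group H] [Group S] (f : H →* S)
    (hS : commutator S = ⊤) (hf : Function.Surjective f) (N : ι → Subgroup H)
    (hN : ∀ i, (N i).Normal) (I : Finset ι) (hI : ∀ i ∈ I, ∀ s, ∃ h ∈ N i, f h = s) (s : S) :
    ∃ h, f h = s ∧ ∀ i ∈ I, h ∈ N i := by
  classical
  suffices h : ∃ M : Subgroup H, M.Normal ∧ M.map f = ⊤ ∧ ∀ i ∈ I, M ≤ N i by
    obtain ⟨M, -, hM, hMI⟩ := h
    have : s ∈ M.map f := by rw [hM]; trivial
    obtain ⟨h, hh, rfl⟩ := this
    exact ⟨h, rfl, fun i hi => hMI i hi hh⟩
  induction I using Finset.induction_on with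
  | empty =>
    exact ⟨⊤, inferInstance, by
      rw [← MonoidHom.range_eq_map, MonoidHom.range_eq_top]; exact hf, by simp⟩
  | insert i I _ ih =>
    obtain ⟨M, hM, hMf, hMI⟩ := ih (fun j hj => hI j (Finset.mem_insert_of_mem hj))
    have := hN i
    have hNi : (N i).map f = ⊤ := by
      rw [eq_top_iff]
      intro s _
      obtain ⟨h, hh, rfl⟩ := hI i (Finset.mem_insert_self _ _) s
      exact ⟨h, hh, rfl⟩
    refine ⟨⁅M, N i⁆, inferInstance, ?_, ?_⟩
    · rw [Subgroup.map_commutator, hMf, hNi]; exact hS
    · intro j hj
      rcases Finset.mem_insert.1 hj with rfl | hj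
      · exact (Subgroup.commutator_le_inf _ _).trans inf_le_right
      · exact ((Subgroup.commutator_le_inf _ _).trans inf_le_left).trans (hMI j hj)

end Pool.Agent.P.MP_4ffd61_al
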