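import Pool.Agent.P.MP_4ffd61_al.Auto
import Pool.Agent.P.MP_4ffd61_al.Odo

/-! A lower bound for the number of maps induced on a level. -/

set_option autoImplicit false

namespace Pool.Agent.P.MP_4ffd61_al

open Equiv

/-- A vertex of level `n + 1` as a word. -/
def toL {X : Type} {n : ℕ} (v : W X n × X) : List X := v.1.1 ++ [v.2]

theorem toL_injective {X : Type} {n : ℕ} : Function.Injective (toL : W X n × X → List X) := by
  rintro ⟨u, x⟩ ⟨v, y⟩ h
  simp only [toL] at h
  obtain ⟨h1, h2⟩ := List.append_inj' h rfl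
  simp only [List.cons.injEq, and_true] at h2
  rw [Subtype.ext h1, h2]

theorem perm_ext_toL {X : Type} {n : ℕ} {g g' : Perm (W X n × X)}
    (h : ∀ v, toL (g v) = toL (g' v)) : g = g' :=
  Equiv.ext fun v => toL_injective (h v)

/-- Permutations that fix level `n`, given by their labels on it. -/
def Psi (X : Type) (n : ℕ) : (W X n → Perm X) →* Perm (W X n × X) where
  toFun ψ := Equiv.prodCongrRight ψ
  map_one' := by ext v <;> rfl
  map_mul' ψ χ := by ext v <;> rfl

@[simp] theorem Psi_apply {X : Type} {n : ℕ} (ψ : W X n → Perm X) (v : W X n × X) :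
    Psi X n ψ v = (v.1, ψ v.1 v.2) := rfl

theorem Psi_injective (X : Type) (n : ℕ) : Function.Injective (Psi X n) := by
  intro ψ χ h
  funext u
  ext x
  have := congrArg (fun g : Perm (W X n × X) => (g (u, x)).2) h
  simpa using this

namespace Aut

variable {Q X : Type} (A : Aut Q X) [Fintype X]

/-- The permutation of level `n` induced by a state. -/
noncomputable def lev (n : ℕ) (q : Q) : Perm (W X n) :=
  Equiv.ofBijective (fun w => ⟨A.act q w.1, by simp [w.2]⟩)
    (Finite.injective_iff_bijective.1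
      (fun _ _ h => Subtype.ext (A.act_injective q (congrArg Subtype.val h))))

/-- The permutation of level `n + 1` induced by a state. -/
noncomputable def pi (n : ℕ) (q : Q) : Perm (W X n × X) :=
  (A.lev n q).prodShear (fun u => A.out (A.dst q u.1))

theorem toL_pi (n : ℕ) (q : Q) (v : W X n × X) : toL (A.pi n q v) = A.act q (toL v) := by
  simp only [toL, act_snoc]
  rfl

/-- The group induced on level `n + 1`. -/
def Grp (n : ℕ) : Subgroup (Perm (W X n × X)) := Subgroup.closure (Set.range (A.pi n))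

theorem Grp_spec (n : ℕ) (g : Perm (W X n × X)) (hg : g ∈ A.Grp n) :
    ∃ qs : List Q, ∀ v, toL (g v) = A.actL qs (toL v) := by
  have h : g ∈ Submonoid.closure (Set.range (A.pi n)) := by
    rw [← Subgroup.closure_toSubmonoid_of_finite]; exact hg
  clear hg
  induction h using Submonoid.closure_induction with
  | mem g hg =>
    obtain ⟨q, rfl⟩ := hg
    exact ⟨[q], fun v => A.toL_pi n q v⟩
  | one => exact ⟨[], fun v => rfl⟩
  | mul g h _ _ ihg ihh =>
    obtain ⟨qs, hq⟩ := ihg
    obtain ⟨rs, hr⟩ := ihh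
    exact ⟨qs ++ rs, fun v => by rw [Perm.mul_apply, hq, hr, actL_append]⟩

theorem exists_Grp (n : ℕ) (qs : List Q) :
    ∃ g ∈ A.Grp n, ∀ v, toL (g v) = A.actL qs (toL v) := by
  induction qs with
  | nil => exact ⟨1, one_mem _, fun v => rfl⟩
  | cons q qs ih =>
    obtain ⟨g, hg, h⟩ := ih
    refine ⟨A.pi n q * g, mul_mem (Subgroup.subset_closure ⟨q, rfl⟩) hg, fun v => ?_⟩
    rw [Perm.mul_apply, toL_pi, h, actL_cons]

theorem card_le_ncard_Lset (n : ℕ) {ι : Type} [Fintype ι] (F : ι → Perm (W X n × X))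
    (hF : Function.Injective F) (hG : ∀ i, F i ∈ A.Grp n) :
    Fintype.card ι ≤ (A.Lset (n + 1)).ncard := by
  classical
  let e : W X n × X ≃ W X (n + 1) := Equiv.ofBijective
    (fun v => ⟨toL v, by simp [toL, v.1.2]⟩) (by
      rw [Fintype.bijective_iff_injective_and_card]
      refine ⟨fun u v h => toL_injective (congrArg Subtype.val h), ?_⟩
      simp [card_W, pow_succ])
  have he : ∀ v, (e v).1 = toL v := fun v => rfl
  let F' : ι → (W X (n + 1) → W X (n + 1)) := fun i w => e (F i (e.symm w))
  have h1 : (Set.univ : Set ι).ncard ≤ (A.Lset (n + 1)).ncard := by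
    refine Set.ncard_le_ncard_of_injOn F' ?_ ?_ (Set.toFinite _)
    · intro i _
      obtain ⟨qs, hq⟩ := A.Grp_spec n _ (hG i)
      refine ⟨qs, fun w => ?_⟩
      simp only [F']
      rw [he, hq, ← he, Equiv.apply_symm_apply]
    · intro i _ j _ h
      apply hF
      ext1 v
      have := congrFun h (e v)
      simpa [F'] using this
  simpa using h1

end Aut

/-- The alphabet: a free track, an address bit and five points. -/
abbrev XX (B : Type) := B × Bool × Fin 5

/-- The alternating group on five points. -/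
abbrev A5 := alternatingGroup (Fin 5)

theorem A5_perfect : commutator A5 = ⊤ := commutator_alternatingGroup_eq_top (by simp)

/-- Action on the last track. -/
def zperm (B : Type) : A5 →* Perm (XX B) where
  toFun a := Equiv.prodCongr (Equiv.refl B) (Equiv.prodCongr (Equiv.refl Bool) (a : Perm (Fin 5)))
  map_one' := by ext v <;> rfl
  map_mul' a b := by ext v <;> rfl

@[simp] theorem zperm_apply {B : Type} (a : A5) (x : XX B) :
    zperm B a x = (x.1, x.2.1, (a : Perm (Fin 5)) x.2.2) := rfl

/-- The address track of a word. -/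
def addr {B : Type} (w : List (XX B)) : List Bool := w.map (fun x => x.2.1)

@[simp] theorem addr_nil {B : Type} : addr ([] : List (XX B)) = [] := rfl
@[simp] theorem addr_cons {B : Type} (x : XX B) (w : List (XX B)) :
    addr (x :: w) = x.2.1 :: addr w := rfl
@[simp] theorem length_addr {B : Type} (w : List (XX B)) : (addr w).length = w.length := by
  simp [addr]
theorem addr_append {B : Type} (u v : List (XX B)) : addr (u ++ v) = addr u ++ addr v := by
  simp [addr]

/-- Maps that act on the last track only, by a function of the address read so far. -/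
def Zaut (B : Type) : Aut (List Bool → A5) (XX B) where
  nx φ x := fun β => φ (x.2.1 :: β)
  out φ := zperm B (φ [])

theorem Zaut_act_one {B : Type} (w : List (XX B)) : (Zaut B).act 1 w = w := by
  induction w with
  | nil => rfl
  | cons x w ih =>
    have : (Zaut B).nx 1 x = 1 := rfl
    rw [Aut.act_cons, this, ih]
    simp [Zaut]

theorem Zaut_act_mul {B : Type} (φ χ : List Bool → A5) (w : List (XX B)) :
    (Zaut B).act (φ * χ) w = (Zaut B).act φ ((Zaut B).act χ w) := by
  induction w generalizing φ χ with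
  | nil => rfl
  | cons x w ih =>
    have : (Zaut B).nx (φ * χ) x = (Zaut B).nx φ x * (Zaut B).nx χ x := rfl
    rw [Aut.act_cons, this, ih]
    rfl

theorem Zaut_dst {B : Type} (φ : List Bool → A5) (u : List (XX B)) :
    (Zaut B).dst φ u = fun β => φ (addr u ++ β) := by
  induction u generalizing φ with
  | nil => rfl
  | cons x u ih => rw [Aut.dst_cons, ih]; rfl

theorem Zaut_act_eq_self {B : Type} (φ : List Bool → A5) (u : List (XX B))
    (h : ∀ β : List Bool, β.length < u.length → φ β = 1) : (Zaut B).act φ u = u := by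
  induction u generalizing φ with
  | nil => rfl
  | cons x u ih =>
    rw [Aut.act_cons, ih]
    · have : φ [] = 1 := h [] (by simp)
      simp [Zaut, this]
    · intro β hβ
      exact h _ (by simpa using hβ)

/-- The odometer on the address track. -/
def odoA {B : Type} : List (XX B) → List (XX B)
  | [] => []
  | (b, false, z) :: w => (b, true, z) :: w
  | (b, true, z) :: w => (b, false, z) :: odoA w

theorem odoA_Zaut {B : Type} (φ : List Bool → A5) (w : List (XX B)) :
    odoA ((Zaut B).act (φ ∘ odo) w) = (Zaut B).act φ (odoA w) := by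
  induction w generalizing φ with
  | nil => rfl
  | cons x w ih =>
    obtain ⟨b, c, z⟩ := x
    cases c with
    | false => rfl
    | true =>
      have := ih (fun β => φ (false :: β))
      simp only [odoA, Aut.act_cons]
      rw [show (Zaut B).nx φ (b, false, z) = fun β => φ (false :: β) from rfl, ← this]
      rfl

/-- The basic gate: acts by `a` at every vertex with a nonzero address. -/
def kap (a : A5) : List Bool → A5 := fun β => if true ∈ β then a else 1

/-- The maps of `Zaut` on level `n + 1`, as a homomorphism. -/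
noncomputable def Phi (B : Type) [Fintype B] (n : ℕ) :
    (List Bool → A5) →* Perm (W (XX B) n × XX B) where
  toFun φ := (Zaut B).pi n φ
  map_one' := perm_ext_toL fun v => by rw [Aut.toL_pi, Zaut_act_one]; rfl
  map_mul' φ χ := perm_ext_toL fun v => by
    rw [Perm.mul_apply, Aut.toL_pi, Aut.toL_pi, Aut.toL_pi, Zaut_act_mul]

theorem toL_Phi {B : Type} [Fintype B] (n : ℕ) (φ : List Bool → A5) (v : W (XX B) n × XX B) :
    toL (Phi B n φ v) = (Zaut B).act φ (toL v) := Aut.toL_pi _ _ _ _

section main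

variable {Q B : Type} [Fintype B] (A : Aut Q (XX B))

/-- First step: isolate one level and one address. -/
theorem step_one (hτ : ∃ q, ∀ w, A.act q w = odoA w)
    (hK : ∀ a, ∃ q, ∀ w, A.act q w = (Zaut B).act (kap a) w)
    (n : ℕ) (hn : 1 ≤ n) (α : List Bool) (hα : α.length = n) (a : A5) :
    Psi (XX B) n (fun u => if addr u.1 = α then zperm B a else 1) ∈ A.Grp n := by
  classical
  let K : Subgroup (List Bool → A5) := (A.Grp n).comap (Phi B n)
  have hodo : ∀ φ ∈ K, φ ∘ odo ∈ K := by
    intro φ hφ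
    obtain ⟨q, hq⟩ := hτ
    have hq' : A.pi n q ∈ A.Grp n := Subgroup.subset_closure ⟨q, rfl⟩
    have : A.pi n q * Phi B n (φ ∘ odo) = Phi B n φ * A.pi n q :=
      perm_ext_toL fun v => by
        rw [Perm.mul_apply, Perm.mul_apply, Aut.toL_pi, toL_Phi, toL_Phi, Aut.toL_pi, hq, hq,
          odoA_Zaut]
    have h2 : Phi B n (φ ∘ odo) = (A.pi n q)⁻¹ * (Phi B n φ * A.pi n q) := by
      rw [← this]; group
    change Phi B n (φ ∘ odo) ∈ A.Grp n
    rw [h2]
    exact mul_mem (inv_mem hq') (mul_mem hφ hq')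
  have hkap : ∀ (b : A5) (j : ℕ), kap b ∘ odo^[j] ∈ K := by
    intro b j
    induction j with
    | zero =>
      obtain ⟨q, hq⟩ := hK b
      have : Phi B n (kap b) = A.pi n q := perm_ext_toL fun v => by
        rw [toL_Phi, Aut.toL_pi, hq]
      change Phi B n (kap b) ∈ A.Grp n
      rw [this]
      exact Subgroup.subset_closure ⟨q, rfl⟩
    | succ j ih => exact hodo _ ih
  let ev : List Bool → (K →* A5) := fun β => (Pi.evalMonoidHom (fun _ : List Bool => A5) β).comp K.subtype
  have hsep : ∀ β : List Bool, β.length ≤ α.length → β ≠ α → ∀ s, ∃ h ∈ (ev β).ker, ev α h = s := by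
    intro β hβ hne s
    obtain ⟨j, h1, h2⟩ := odo_separate α β hβ hne
    refine ⟨⟨_, hkap s j⟩, ?_, ?_⟩
    · simp [ev, MonoidHom.mem_ker, kap, h2]
    · simp [ev, kap, h1]
  have hfin : {β : List Bool | β.length ≤ α.length ∧ β ≠ α}.Finite :=
    (List.finite_length_le Bool α.length).subset fun β h => h.1
  obtain ⟨φ, hφa, hφ⟩ := exists_mem_iInf_of_perfect (ev α) A5_perfect (by
      intro s
      obtain ⟨h, -, hs⟩ := hsep [] (by simp) (by rintro rfl; simp at hα; omega) s
      exact ⟨h, hs⟩)
    (fun β => (ev β).ker) (fun β => inferInstance) hfin.toFinset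
    (fun β hβ => by
      rw [Set.Finite.mem_toFinset] at hβ
      exact hsep β hβ.1 hβ.2) a
  have hφ1 : ∀ β : List Bool, β.length ≤ n → β ≠ α → φ.1 β = 1 := by
    intro β h1 h2
    exact hφ β (by rw [Set.Finite.mem_toFinset]; exact ⟨by omega, h2⟩)
  have hφa' : φ.1 α = a := hφa
  have : Psi (XX B) n (fun u => if addr u.1 = α then zperm B a else 1) = Phi B n φ.1 :=
    perm_ext_toL fun v => by
      rw [toL_Phi, toL, toL, Aut.act_snoc, Zaut_act_eq_self, Zaut_dst]
      · simp only [Psi_apply, Zaut, List.append_nil]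
        split_ifs with h
        · rw [h, hφa']
        · rw [hφ1 _ (by simp [v.1.2]) h, map_one]
      · intro β hβ
        rw [v.1.2] at hβ
        exact hφ1 β hβ.le (by rintro rfl; omega)
  rw [this]
  exact φ.2

omit [Fintype B] in
theorem lab_z (hz : ∀ q, ∃ a : A5, ∀ x, (A.out q x).2.2 = (a : Perm (Fin 5)) x.2.2)
    (qs : List Q) (u : List (XX B)) :
    ∃ a : A5, ∀ x, (A.lab qs u x).2.2 = (a : Perm (Fin 5)) x.2.2 := by
  induction qs with
  | nil => exact ⟨1, fun x => rfl⟩
  | cons q qs ih =>
    obtain ⟨a, ha⟩ := ih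
    obtain ⟨b, hb⟩ := hz (A.dst q (A.actL qs u))
    exact ⟨b * a, fun x => by simp [Aut.lab, hb, ha]⟩

/-- Conjugating the elements of the first step. -/
theorem step_conj (hz : ∀ q, ∃ a : A5, ∀ x, (A.out q x).2.2 = (a : Perm (Fin 5)) x.2.2)
    (hτ : ∃ q, ∀ w, A.act q w = odoA w)
    (hK : ∀ a, ∃ q, ∀ w, A.act q w = (Zaut B).act (kap a) w)
    (n : ℕ) (hn : 1 ≤ n) (qs : List Q) (u : W (XX B) n) (s : A5) :
    ∃ ψ : W (XX B) n → Perm (XX B), Psi (XX B) n ψ ∈ A.Grp n ∧
      (∀ x, (ψ u x).2.2 = (s : Perm (Fin 5)) x.2.2) ∧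
      ∀ v : W (XX B) n, addr (A.actL qs v.1) ≠ addr (A.actL qs u.1) → ψ v = 1 := by
  classical
  obtain ⟨a, ha⟩ := lab_z A hz qs u.1
  obtain ⟨g, hg, hgq⟩ := A.exists_Grp n qs
  have h0 := step_one A hτ hK n hn (addr (A.actL qs u.1)) (by simp [u.2]) (a * s * a⁻¹)
  let ψ : W (XX B) n → Perm (XX B) := fun v => (A.lab qs v.1)⁻¹ *
    (if addr (A.actL qs v.1) = addr (A.actL qs u.1) then zperm B (a * s * a⁻¹) else 1) *
      A.lab qs v.1
  have hgv : ∀ v : W (XX B) n × XX B,
      g v = (⟨A.actL qs v.1.1, by simp [v.1.2]⟩, A.lab qs v.1.1 v.2) := by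
    intro v
    apply toL_injective
    rw [hgq, toL, Aut.actL_snoc]
    rfl
  have h1 : g * Psi (XX B) n ψ = Psi (XX B) n
      (fun v => if addr v.1 = addr (A.actL qs u.1) then zperm B (a * s * a⁻¹) else 1) * g := by
    ext1 v
    simp only [Perm.mul_apply, hgv, Psi_apply, ψ, Perm.coe_inv, Equiv.apply_symm_apply]
  have h2 : Psi (XX B) n ψ = g⁻¹ * (Psi (XX B) n
      (fun v => if addr v.1 = addr (A.actL qs u.1) then zperm B (a * s * a⁻¹) else 1) * g) := by
    rw [← h1]; group
  refine ⟨ψ, ?_, ?_, ?_⟩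
  · rw [h2]; exact mul_mem (inv_mem hg) (mul_mem h0 hg)
  · intro x
    have h3 := ha (ψ u x)
    have h4 : A.lab qs u.1 (ψ u x) = zperm B (a * s * a⁻¹) (A.lab qs u.1 x) := by
      simp only [ψ, if_true, Perm.mul_apply, Perm.coe_inv, Equiv.apply_symm_apply]
    apply (a : Perm (Fin 5)).injective
    rw [← h3, h4, zperm_apply, ha]
    simp
  · intro v hv
    simp [ψ, hv]

/-- The lower bound. -/
theorem two_pow_le_ncard_Lset
    (hz : ∀ q, ∃ a : A5, ∀ x, (A.out q x).2.2 = (a : Perm (Fin 5)) x.2.2)
    (hτ : ∃ q, ∀ w, A.act q w = odoA w)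
    (hK : ∀ a, ∃ q, ∀ w, A.act q w = (Zaut B).act (kap a) w)
    (hsep : ∀ (c : List (XX B)) (x x' : XX B), x ≠ x' →
      ∃ qs, addr (A.actL qs (c ++ [x])) ≠ addr (A.actL qs (c ++ [x'])))
    (n : ℕ) (hn : 1 ≤ n) :
    2 ^ (Fintype.card (XX B) ^ n) ≤ (A.Lset (n + 1)).ncard := by
  classical
  have hsep' : ∀ u v : List (XX B), u.length = v.length → u ≠ v →
      ∃ qs, addr (A.actL qs v) ≠ addr (A.actL qs u) := by
    have hdiff : ∀ u v : List (XX B), u.length = v.length → u ≠ v →
        ∃ c x x' u' v', x ≠ x' ∧ u = (c ++ [x]) ++ u' ∧ v = (c ++ [x']) ++ v' := by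
      intro u
      induction u with
      | nil => intro v h1 h2; exact absurd (List.length_eq_zero_iff.1 h1.symm).symm h2
      | cons x u ih =>
        intro v h1 h2
        cases v with
        | nil => simp at h1
        | cons x' v =>
          by_cases hx : x = x'
          · subst hx
            obtain ⟨c, y, y', u', v', h, rfl, rfl⟩ := ih v (by simpa using h1)
              (by simpa using h2)
            exact ⟨x :: c, y, y', u', v', h, rfl, rfl⟩
          · exact ⟨[], x, x', u, v, hx, rfl, rfl⟩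
    intro u v h1 h2
    obtain ⟨c, x, x', u', v', hx, rfl, rfl⟩ := hdiff u v h1 h2
    obtain ⟨qs, hq⟩ := hsep c x x' hx
    refine ⟨qs, fun h => hq ?_⟩
    obtain ⟨r, hr⟩ := A.actL_append_word qs (c ++ [x]) u'
    obtain ⟨r', hr'⟩ := A.actL_append_word qs (c ++ [x']) v'
    rw [hr, hr', addr_append, addr_append] at h
    exact (List.append_inj h (by simp)).1.symm
  obtain ⟨s₀, hs₀⟩ : ∃ s : A5, s ≠ 1 := exists_ne 1
  have hone : ∀ u : W (XX B) n, ∃ p : Perm (XX B), p ≠ 1 ∧
      Pi.mulSingle u p ∈ (A.Grp n).comap (Psi (XX B) n) := by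
    intro u
    let K : Subgroup ((W (XX B) n → Perm (XX B)) × A5) :=
      { carrier := {p | Psi (XX B) n p.1 ∈ A.Grp n ∧
          ∀ x, (p.1 u x).2.2 = (p.2 : Perm (Fin 5)) x.2.2}
        mul_mem' := by
          rintro ⟨ψ, a⟩ ⟨χ, b⟩ ⟨h1, h2⟩ ⟨h3, h4⟩
          refine ⟨?_, fun x => ?_⟩
          · simp only [Prod.mk_mul_mk, map_mul]; exact mul_mem h1 h3
          · simp only at h2 h4
            simp [h2, h4]
        one_mem' := ⟨by simp only [Prod.fst_one, map_one]; exact one_mem _, fun x => rfl⟩
        inv_mem' := by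
          rintro ⟨ψ, a⟩ ⟨h1, h2⟩
          refine ⟨?_, fun x => ?_⟩
          · simp only [Prod.inv_mk, map_inv]; exact inv_mem h1
          · simp only at h2
            have h3 := h2 ((ψ u)⁻¹ x)
            apply (a : Perm (Fin 5)).injective
            simp only [Prod.inv_mk, Pi.inv_apply]
            rw [← h3]
            simp }
    let f : K →* A5 := (MonoidHom.snd _ _).comp K.subtype
    let ev : W (XX B) n → (K →* Perm (XX B)) := fun v =>
      ((Pi.evalMonoidHom (fun _ : W (XX B) n => Perm (XX B)) v).comp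
        (MonoidHom.fst _ _)).comp K.subtype
    obtain ⟨k, hk1, hk2⟩ := exists_mem_iInf_of_perfect f A5_perfect (by
        intro s
        obtain ⟨ψ, h1, h2, -⟩ := step_conj A hz hτ hK n hn [] u s
        exact ⟨⟨(ψ, s), h1, h2⟩, rfl⟩)
      (fun v => (ev v).ker) (fun v => inferInstance) (Finset.univ.erase u)
      (fun v hv s => by
        have hvu : v ≠ u := (Finset.mem_erase.1 hv).1
        obtain ⟨qs, hq⟩ := hsep' u.1 v.1 (by rw [u.2, v.2]) (fun h => hvu (Subtype.ext h.symm))
        obtain ⟨ψ, h1, h2, h3⟩ := step_conj A hz hτ hK n hn qs u s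
        exact ⟨⟨(ψ, s), h1, h2⟩, h3 v hq, rfl⟩) s₀
    have hk1' : k.1.2 = s₀ := hk1
    refine ⟨k.1.1 u, ?_, ?_⟩
    · intro h
      apply hs₀
      have h2 := k.2.2
      rw [h, hk1'] at h2
      obtain ⟨v₀, -⟩ : ∃ v : List (XX B), v = u.1 := ⟨_, rfl⟩
      obtain ⟨x₀, -⟩ := List.exists_mem_of_length_pos (l := u.1) (by rw [u.2]; omega)
      ext z
      have := h2 (x₀.1, x₀.2.1, z)
      simp only [Perm.coe_one, id_eq] at this
      rw [← this]
      rfl
    · have : Pi.mulSingle u (k.1.1 u) = k.1.1 := by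
        funext v
        by_cases hv : v = u
        · subst hv; simp
        · rw [Pi.mulSingle_eq_of_ne hv]
          exact (hk2 v (Finset.mem_erase.2 ⟨hv, Finset.mem_univ _⟩)).symm
      rw [this]
      exact k.2.1
  choose p hp1 hp2 using hone
  have hcard := A.card_le_ncard_Lset n
    (fun S : W (XX B) n → Bool => Psi (XX B) n (fun u => if S u then p u else 1)) (by
      intro S T h
      have h1 := Psi_injective _ _ h
      funext u
      have h2 := congrFun h1 u
      have := hp1 u
      cases hS : S u <;> cases hT : T u <;> simp_all) (by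
      intro S
      change (fun u => if S u then p u else 1) ∈ (A.Grp n).comap (Psi (XX B) n)
      apply Subgroup.pi_mem_of_mulSingle_mem
      intro u
      by_cases h : S u
      · simp only [h, if_true]; exact hp2 u
      · simp only [h]; simp)
  rwa [Fintype.card_fun, Fintype.card_bool, card_W] at hcard

end main

end Pool.Agent.P.MP_4ffd61_al
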