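import Mathlib

/-! A fixed Turing machine whose halting problem on unary inputs is undecidable. -/

set_option autoImplicit false

namespace Pool.Agent.P.MP_4ffd61_al

open Turing

/-- The number whose binary expansion consists of `k + 1` ones. -/
def pn : ℕ → PosNum
  | 0 => PosNum.one
  | k + 1 => PosNum.bit1 (pn k)

theorem pn_val (k : ℕ) : (pn k : ℕ) + 1 = 2 ^ (k + 1) := by
  induction k with
  | zero => rfl
  | succ k ih =>
    have : (pn (k + 1) : ℕ) = (pn k : ℕ) + (pn k : ℕ) + 1 := rfl
    rw [this, pow_succ]; omega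

theorem trNat_pn (k : ℕ) :
    PartrecToTM2.trNat (pn k : ℕ) = List.replicate (k + 1) PartrecToTM2.Γ'.bit1 := by
  rw [PartrecToTM2.trNat, PosNum.of_to_nat]
  change PartrecToTM2.trPosNum (pn k) = _
  induction k with
  | zero => rfl
  | succ k ih => rw [List.replicate_succ, ← ih]; rfl

/-- Decode the input and run the program that it names. -/
def univF : ℕ →. ℕ := fun x =>
  (Nat.rfind (fun k => Part.some (decide (x + 1 = 2 ^ (k + 1))))).bind
    (fun k => Nat.Partrec.Code.eval (Denumerable.ofNat Nat.Partrec.Code k) 0)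

theorem univF_partrec : Partrec univF := by
  have hpow : Primrec₂ (fun a b : ℕ => a ^ b) := Primrec₂.unpaired'.1 Nat.Primrec.pow
  have h1 : Primrec₂ (fun x k : ℕ => decide (x + 1 = 2 ^ (k + 1))) :=
    (Primrec.eq.decide.comp (Primrec.succ.comp Primrec.fst)
      (hpow.comp (Primrec.const 2) (Primrec.succ.comp Primrec.snd))).to₂
  refine (Partrec.rfind h1.to_comp.partrec₂).bind ?_
  exact (Nat.Partrec.Code.eval_part.comp
    ((Computable.ofNat _).comp Computable.snd) (Computable.const 0)).to₂

theorem univF_dom (k : ℕ) :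
    (univF (pn k : ℕ)).Dom ↔
      (Nat.Partrec.Code.eval (Denumerable.ofNat Nat.Partrec.Code k) 0).Dom := by
  have : Nat.rfind (fun j => Part.some (decide ((pn k : ℕ) + 1 = 2 ^ (j + 1)))) = Part.some k := by
    rw [Part.eq_some_iff, Nat.mem_rfind]
    refine ⟨by simp [pn_val], fun {m} hm => ?_⟩
    simp only [pn_val, Part.mem_some_iff]
    have : ¬ (2 ^ (k + 1) = 2 ^ (m + 1)) := fun h => by
      have := Nat.pow_right_injective le_rfl h
      omega
    simp [this]
  rw [univF, this, Part.bind_some]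

instance : Fintype PartrecToTM2.K' :=
  ⟨{.main, .rev, .aux, .stack}, fun k => by cases k <;> simp⟩

theorem exists_TM : ∃ (Γ Λ : Type) (_ : Fintype Γ) (_ : Inhabited Γ) (_ : Inhabited Λ)
    (M : TM0.Machine Γ Λ) (S : Finset Λ) (γ₀ γ₁ : Γ), TM0.Supports M (S : Set Λ) ∧
      ¬ ComputablePred (fun n : ℕ => (TM0.eval M (γ₀ :: List.replicate n γ₁)).Dom) := by
  classical
  obtain ⟨c, hc⟩ := ToPartrec.Code.exists_code (Nat.Partrec'.part_iff₁.2 univF_partrec)
  let inh : Inhabited PartrecToTM2.Λ' := ⟨PartrecToTM2.trNormal c PartrecToTM2.Cont'.halt⟩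
  have hs2 := PartrecToTM2.tr_supports c PartrecToTM2.Cont'.halt
  have hs1 := TM2to1.tr_supports _ hs2
  have hs0 := TM1to0.tr_supports _ hs1
  refine ⟨_, _, inferInstance, inferInstance, inferInstance, _, _,
    (true, Function.update (fun _ => none) PartrecToTM2.K'.main (some PartrecToTM2.Γ'.cons)),
    (false, Function.update (fun _ => none) PartrecToTM2.K'.main (some PartrecToTM2.Γ'.bit1)),
    hs0, fun h => ComputablePred.halting_problem 0 ?_⟩
  obtain ⟨inst, h⟩ := h
  refine ⟨Classical.decPred _, (h.comp (Computable.succ.comp Computable.encode)).of_eq fun p => ?_⟩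
  rw [decide_eq_decide]
  have h1 : ((true, Function.update (fun _ => none) PartrecToTM2.K'.main
        (some PartrecToTM2.Γ'.cons)) :: List.replicate (Encodable.encode p).succ
        (false, Function.update (fun _ => none) PartrecToTM2.K'.main
          (some PartrecToTM2.Γ'.bit1)) : List (TM2to1.Γ' PartrecToTM2.K' fun _ => PartrecToTM2.Γ')) =
      TM2to1.trInit PartrecToTM2.K'.main (PartrecToTM2.trList [(pn (Encodable.encode p) : ℕ)]) := by
    simp [TM2to1.trInit, trNat_pn]
  have h2 : TM2.init PartrecToTM2.K'.main (PartrecToTM2.trList [(pn (Encodable.encode p) : ℕ)]) =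
      PartrecToTM2.init c [(pn (Encodable.encode p) : ℕ)] := by
    rw [TM2.init, PartrecToTM2.init]
    congr
    funext k
    cases k <;> rfl
  have h3 := hc ⟨[(pn (Encodable.encode p) : ℕ)], rfl⟩
  have h4 := univF_dom (Encodable.encode p)
  rw [Denumerable.ofNat_encode] at h4
  have e0 := congrArg (fun l => (TM0.eval (TM1to0.tr (TM2to1.tr PartrecToTM2.tr)) l).Dom) h1
  have e1 := congrArg Part.Dom (TM1to0.tr_eval (TM2to1.tr PartrecToTM2.tr)
    (TM2to1.trInit PartrecToTM2.K'.main (PartrecToTM2.trList [(pn (Encodable.encode p) : ℕ)])))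
  have e2 := TM2to1.tr_eval_dom PartrecToTM2.tr PartrecToTM2.K'.main
    (PartrecToTM2.trList [(pn (Encodable.encode p) : ℕ)])
  have e3 := congrArg (fun l => (StateTransition.eval (TM2.step PartrecToTM2.tr) l).Dom) h2
  have e4 := congrArg Part.Dom (PartrecToTM2.tr_eval c [(pn (Encodable.encode p) : ℕ)])
  have e5 := congrArg Part.Dom h3
  exact e0.to_iff.trans (e1.to_iff.trans (e2.trans (e3.to_iff.trans (e4.to_iff.trans
    (e5.to_iff.trans h4)))))

end Pool.Agent.P.MP_4ffd61_al
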