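import Pool.Agent.P.MP_4ffd61_al.Tiles
import Pool.Agent.P.MP_4ffd61_al.Univ

/-! Halting computations of a Turing machine as rectangular tilings. -/

set_option autoImplicit false

namespace Pool.Agent.P.MP_4ffd61_al

open Turing List

/-- A tile: state, scanned symbol, first-column flag, and two windows of the tape. -/
structure Tile (L Γ : Type) where
  q : L
  h : Γ
  fs : Bool
  am : Γ
  a0 : Γ
  ap : Γ
  bm : Γ
  b0 : Γ
  bp : Γ

instance {L Γ : Type} [Finite L] [Finite Γ] : Finite (Tile L Γ) :=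
  Finite.of_injective
    (fun t : Tile L Γ => (t.q, t.h, t.fs, t.am, t.a0, t.ap, t.bm, t.b0, t.bp)) (by
      rintro ⟨⟩ ⟨⟩ h
      simp only [Prod.mk.injEq] at h
      simp [h])

variable {Γ Λ : Type} [Inhabited Γ] [Inhabited Λ] (M : TM0.Machine Γ Λ) (S : Finset Λ)
  (γ₀ γ₁ : Γ)

/-- Effect of an instruction on the tape. -/
def actF : TM0.Stmt Γ → (ℤ → Γ) → ℤ → Γ
  | TM0.Stmt.move Dir.left, f => fun i => f (i - 1)
  | TM0.Stmt.move Dir.right, f => fun i => f (i + 1)
  | TM0.Stmt.write b, f => fun i => if i = 0 then b else f i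

def newA {L : Type} : TM0.Stmt Γ → Tile L Γ → Γ
  | TM0.Stmt.move Dir.left, t => t.am
  | TM0.Stmt.move Dir.right, t => t.ap
  | TM0.Stmt.write b, t => if t.fs then b else t.a0

def newB {L : Type} : TM0.Stmt Γ → Tile L Γ → Γ
  | TM0.Stmt.move Dir.left, t => t.bp
  | TM0.Stmt.move Dir.right, t => t.bm
  | TM0.Stmt.write b, t => if t.fs then b else t.b0

/-- The tiling problem of a machine. -/
def tmTS : TS (Tile S Γ) where
  H t t' := t.q = t'.q ∧ t.h = t'.h ∧ t'.fs = false ∧ t.ap = t'.a0 ∧ t.a0 = t'.am ∧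
    t.bp = t'.b0 ∧ t.b0 = t'.bm
  V t t' := ∃ a, M t.q t.h = some (t'.q.1, a) ∧ t'.a0 = newA a t ∧ t'.b0 = newB a t
  St t := t.fs = true ∧ t.a0 = t.h ∧ t.b0 = t.h ∧ t.am = t.bp ∧ t.bm = t.ap
  En t := t.a0 = default ∧ t.ap = default ∧ t.b0 = default ∧ t.bp = default
  Halt t := M t.q t.h = none
  P0 t := t.q.1 = default ∧ t.a0 = γ₀
  P1 t := t.a0 = γ₁ ∧ t.b0 = default
  P2 t := t.a0 = default ∧ t.b0 = default

/-- The tile in column `j` of a configuration. -/
def can {L : Type} (q : L) (f : ℤ → Γ) (j : ℕ) : Tile L Γ :=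
  ⟨q, f 0, decide (j = 0), f (j - 1), f j, f (j + 1), f (-j + 1), f (-j), f (-j - 1)⟩

/-- A row represents a configuration. -/
def Rep {L : Type} (r : List (Tile L Γ)) (q : L) (f : ℤ → Γ) : Prop :=
  0 < r.length ∧ (∀ j (hj : j < r.length), r[j] = can q f j) ∧
    ∀ i : ℤ, (r.length : ℤ) - 1 ≤ |i| → f i = default

omit [Inhabited Γ] in
theorem newA_can {L : Type} (a : TM0.Stmt Γ) (q : L) (f : ℤ → Γ) (j : ℕ) :
    newA a (can q f j) = actF a f j := by
  rcases a with (_ | _) | b <;> simp [newA, can, actF]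

omit [Inhabited Γ] in
theorem newB_can {L : Type} (a : TM0.Stmt Γ) (q : L) (f : ℤ → Γ) (j : ℕ) :
    newB a (can q f j) = actF a f (-j) := by
  rcases a with (_ | _) | b <;> simp [newB, can, actF]

theorem actF_default (a : TM0.Stmt Γ) (f : ℤ → Γ) (k : ℤ) (hk : 0 ≤ k)
    (h : ∀ i : ℤ, k ≤ |i| → f i = default) (i : ℤ) (hi : k + 1 ≤ |i|) : actF a f i = default := by
  rcases a with (_ | _) | b
  · exact h _ (by rcases abs_cases i with h | h <;> rcases abs_cases (i - 1) with h | h <;> omega)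
  · exact h _ (by rcases abs_cases i with h | h <;> rcases abs_cases (i + 1) with h | h <;> omega)
  · have : i ≠ 0 := by rintro rfl; simp at hi; omega
    simp only [actF, this, if_false]
    exact h _ (by omega)

theorem exists_rep (r : List (Tile S Γ)) (h : (tmTS M S γ₀ γ₁).RowOK r) :
    ∃ q f, Rep r q f := by
  obtain ⟨h0, hSt, hH, hEn⟩ := h
  have hpos : 0 < r.length := length_pos_iff.2 h0
  rw [isChain_iff_getElem] at hH
  have hSt' : (tmTS M S γ₀ γ₁).St r[0] := hSt _ (by rw [head?_eq_getElem?]; simp)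
  have hEn' : ∀ j (hj : j < r.length), j + 1 = r.length → (tmTS M S γ₀ γ₁).En r[j] := by
    intro j hj hj'
    apply hEn
    rw [getLast?_eq_getElem?, Option.mem_def, ← getElem?_eq_getElem hj]
    congr 1; omega
  let A : ℕ → Γ := fun j => if hj : j < r.length then r[j].a0 else default
  let B : ℕ → Γ := fun j => if hj : j < r.length then r[j].b0 else default
  let f : ℤ → Γ := fun i => if 0 ≤ i then A i.toNat else B (-i).toNat
  have hA : ∀ j : ℕ, f j = A j := fun j => by simp [f]
  have hB : ∀ j : ℕ, f (-j) = B j := fun j => by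
    rcases Nat.eq_zero_or_pos j with rfl | hj
    · simp [f, A, B, hpos, hSt'.2.1, hSt'.2.2.1]
    · have : ¬ (0 ≤ -(j : ℤ)) := by omega
      simp only [f, this, if_false, neg_neg, Int.toNat_natCast]
  have hap : ∀ j (hj : j < r.length), r[j].ap = A (j + 1) := by
    intro j hj
    by_cases h : j + 1 < r.length
    · simp only [A, h, dif_pos]; exact (hH j h).2.2.2.1
    · simp only [A, h, dif_neg, not_false_eq_true]; exact (hEn' j hj (by omega)).2.1
  have hbp : ∀ j (hj : j < r.length), r[j].bp = B (j + 1) := by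
    intro j hj
    by_cases h : j + 1 < r.length
    · simp only [B, h, dif_pos]; exact (hH j h).2.2.2.2.2.1
    · simp only [B, h, dif_neg, not_false_eq_true]; exact (hEn' j hj (by omega)).2.2.2
  have hq : ∀ j (hj : j < r.length), r[j].q = r[0].q ∧ r[j].h = r[0].h := by
    intro j
    induction j with
    | zero => intro _; exact ⟨rfl, rfl⟩
    | succ j ih =>
      intro hj
      have := ih (by omega)
      exact ⟨(hH j hj).1.symm.trans this.1, (hH j hj).2.1.symm.trans this.2⟩
  refine ⟨r[0].q, f, hpos, fun j hj => ?_, fun i hi => ?_⟩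
  · have e1 : r[j].h = f 0 := by
      rw [(hq j hj).2, ← hSt'.2.1]
      have := hA 0
      simp only [A, hpos, dif_pos] at this
      exact this.symm
    have e2 : r[j].fs = decide (j = 0) := by
      cases j with
      | zero => simpa using hSt'.1
      | succ j => simpa using (hH j hj).2.2.1
    have e3 : r[j].am = f (j - 1) := by
      cases j with
      | zero => rw [hSt'.2.2.2.1, hbp 0 hpos, ← hB]; rfl
      | succ j =>
        rw [← (hH j hj).2.2.2.2.1]
        have := hA j
        simp only [A, (by omega : j < r.length), dif_pos] at this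
        rw [← this]; congr 1; push_cast; ring
    have e4 : r[j].a0 = f j := by rw [hA]; simp [A, hj]
    have e5 : r[j].ap = f (j + 1) := by rw [hap j hj, ← hA]; rfl
    have e6 : r[j].bm = f (-j + 1) := by
      cases j with
      | zero => rw [hSt'.2.2.2.2, hap 0 hpos, ← hA]; rfl
      | succ j =>
        rw [← (hH j hj).2.2.2.2.2.2]
        have := hB j
        simp only [B, (by omega : j < r.length), dif_pos] at this
        rw [← this]; congr 1; push_cast; ring
    have e7 : r[j].b0 = f (-j) := by rw [hB]; simp [B, hj]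
    have e8 : r[j].bp = f (-j - 1) := by
      rw [hbp j hj, ← hB]; congr 1; push_cast; ring
    rw [can, ← e1, ← e2, ← e3, ← e4, ← e5, ← e6, ← e7, ← e8, ← (hq j hj).1]
  · obtain ⟨j, rfl | rfl⟩ := Int.eq_nat_or_neg i
    · rw [hA]
      simp only [Nat.abs_cast] at hi
      by_cases hj : j < r.length
      · simp only [A, hj, dif_pos]; exact (hEn' j hj (by omega)).1
      · simp [A, hj]
    · rw [hB]
      simp only [abs_neg, Nat.abs_cast] at hi
      by_cases hj : j < r.length
      · simp only [B, hj, dif_pos]; exact (hEn' j hj (by omega)).2.2.1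
      · simp [B, hj]

theorem Rep.rowOK {r : List (Tile S Γ)} {q : S} {f : ℤ → Γ} (h : Rep r q f) :
    (tmTS M S γ₀ γ₁).RowOK r := by
  obtain ⟨h0, h1, h2⟩ := h
  refine ⟨length_pos_iff.1 h0, ?_, ?_, ?_⟩
  · intro t ht
    rw [head?_eq_getElem?, getElem?_eq_getElem h0, h1] at ht
    obtain rfl := Option.some.inj ht
    simp [tmTS, can]
  · rw [isChain_iff_getElem]
    intro j hj
    rw [h1, h1]
    simp [tmTS, can]
    congr 1; ring
  · intro t ht
    rw [getLast?_eq_getElem?, getElem?_eq_getElem (by omega), h1] at ht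
    obtain rfl := Option.some.inj ht
    refine ⟨h2 _ ?_, h2 _ ?_, h2 _ ?_, h2 _ ?_⟩
    · rw [abs_of_nonneg (by omega)]; omega
    · rw [abs_of_nonneg (by omega)]; omega
    · rw [abs_of_nonpos (by omega)]; omega
    · rw [abs_of_nonpos (by omega)]; omega

theorem step_of_V {r r' : List (Tile S Γ)} {q q' : S} {f f' : ℤ → Γ} (h : Rep r q f)
    (h' : Rep r' q' f') (hV : Forall₂ (tmTS M S γ₀ γ₁).V r r') :
    ∃ a, M q (f 0) = some (q'.1, a) ∧ f' = actF a f := by
  obtain ⟨hl, hV⟩ := forall₂_iff_get.1 hV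
  simp only [get_eq_getElem] at hV
  have key : ∀ j, j < r.length →
      ∃ a, M q (f 0) = some (q'.1, a) ∧ f' j = actF a f j ∧ f' (-j) = actF a f (-j) := by
    intro j hj
    obtain ⟨a, h1, h2, h3⟩ := hV j hj (hl ▸ hj)
    rw [h.2.1, h'.2.1] at h1 h2 h3
    rw [newA_can] at h2
    rw [newB_can] at h3
    exact ⟨a, h1, h2, h3⟩
  obtain ⟨a, ha, -⟩ := key 0 h.1
  refine ⟨a, ha, funext fun i => ?_⟩
  by_cases hi : |i| < r.length
  · obtain ⟨j, rfl | rfl⟩ := Int.eq_nat_or_neg i
    · obtain ⟨a', ha', h1, -⟩ := key j (by simpa using hi)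
      rw [ha] at ha'
      simp only [Option.some.injEq, Prod.mk.injEq, true_and] at ha'
      rw [ha', h1]
    · obtain ⟨a', ha', -, h1⟩ := key j (by simpa using hi)
      rw [ha] at ha'
      simp only [Option.some.injEq, Prod.mk.injEq, true_and] at ha'
      rw [ha', h1]
  · have := h.1
    rw [h'.2.2 i (by omega), actF_default a f (r.length - 1) (by omega) h.2.2 i (by omega)]

theorem V_of_step {r r' : List (Tile S Γ)} {q q' : S} {f : ℤ → Γ} {a : TM0.Stmt Γ}
    (h : Rep r q f) (h' : Rep r' q' (actF a f)) (hl : r.length = r'.length)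
    (ha : M q (f 0) = some (q'.1, a)) : Forall₂ (tmTS M S γ₀ γ₁).V r r' := by
  refine forall₂_of_length_eq_of_get hl (fun j h1 h2 => ?_)
  simp only [get_eq_getElem]
  rw [h.2.1, h'.2.1]
  exact ⟨a, ha, (newA_can a q f j).symm, (newB_can a q f j).symm⟩

theorem step_some (c : TM0.Cfg Γ Λ) (q' : Λ) (a : TM0.Stmt Γ)
    (h : M c.q (c.Tape.nth 0) = some (q', a)) :
    ∃ c', TM0.step M c = some c' ∧ c'.q = q' ∧ c'.Tape.nth = actF a c.Tape.nth := by
  obtain ⟨q, T⟩ := c
  simp only [Tape.nth_zero] at h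
  refine ⟨_, by simp only [TM0.step, h, Option.map_some]; rfl, rfl, funext fun i => ?_⟩
  rcases a with (_ | _) | b <;> simp [actF]

theorem step_none (c : TM0.Cfg Γ Λ) : TM0.step M c = none ↔ M c.q (c.Tape.nth 0) = none := by
  obtain ⟨q, T⟩ := c
  simp [TM0.step]

/-- The machine halts from a configuration. -/
def Halts (c : TM0.Cfg Γ Λ) : Prop :=
  ∃ b, StateTransition.Reaches (TM0.step M) c b ∧ TM0.step M b = none

theorem dom_iff_halts (l : List Γ) : (TM0.eval M l).Dom ↔ Halts M (TM0.init l) := by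
  change (StateTransition.eval (TM0.step M) (TM0.init l)).Dom ↔ _
  rw [Part.dom_iff_mem]
  exact exists_congr fun b => StateTransition.mem_eval

theorem halts_of_rows (r₀ : List (Tile S Γ)) (rs : List (List (Tile S Γ)))
    (h1 : ∀ r ∈ rs, (tmTS M S γ₀ γ₁).RowOK r)
    (h2 : IsChain (Forall₂ (tmTS M S γ₀ γ₁).V) (r₀ :: rs))
    (h3 : ∀ t ∈ ((r₀ :: rs).getLast (by simp)).getLast?, (tmTS M S γ₀ γ₁).Halt t)
    (c : TM0.Cfg Γ Λ) (q : S) (hq : c.q = q) (hc : Rep r₀ q c.Tape.nth) : Halts M c := by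
  induction rs generalizing r₀ c q with
  | nil =>
    refine ⟨c, Relation.ReflTransGen.refl, (step_none M c).2 ?_⟩
    have h0 := hc.1
    have := h3 (can q c.Tape.nth (r₀.length - 1)) (by
      rw [getLast_singleton, getLast?_eq_getElem?, getElem?_eq_getElem (by omega), hc.2.1]; rfl)
    rw [hq]
    exact this
  | cons r rs ih =>
    rw [isChain_cons_cons] at h2
    obtain ⟨q', f', h'⟩ := exists_rep M S γ₀ γ₁ r (h1 r mem_cons_self)
    obtain ⟨a, ha, rfl⟩ := step_of_V M S γ₀ γ₁ hc h' h2.1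
    obtain ⟨c', hs, hq', hf⟩ := step_some M c q' a (by rw [hq]; exact ha)
    obtain ⟨b, hb1, hb2⟩ := ih r (fun r hr => h1 r (mem_cons_of_mem _ hr)) h2.2
      (by simpa using h3) c' q' hq' (by rw [hf]; exact h')
    exact ⟨b, Relation.ReflTransGen.head hs hb1, hb2⟩

theorem init_nth_nat (l : List Γ) (j : ℕ) :
    (TM0.init l : TM0.Cfg Γ Λ).Tape.nth j = l.getD j default := by
  simp only [TM0.init, Tape.mk₁, Tape.mk₂, Tape.mk'_nth_nat, ListBlank.nth_mk]
  rfl

theorem init_nth_neg (l : List Γ) (j : ℕ) :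
    (TM0.init l : TM0.Cfg Γ Λ).Tape.nth (-(j + 1 : ℕ)) = default := rfl

theorem input_getD (n j : ℕ) : (γ₀ :: replicate n γ₁).getD j default =
    if j = 0 then γ₀ else if j ≤ n then γ₁ else default := by
  cases j with
  | zero => simp
  | succ j =>
    simp only [Nat.succ_ne_zero, if_false, getD_eq_getElem?_getD]
    by_cases h : j < n
    · simp [Nat.succ_le_of_lt h]
    · have : ¬ (j + 1 ≤ n) := by omega
      simp [this]

theorem halts_of_valid (n : ℕ) (h : ∃ r₀ rs, (tmTS M S γ₀ γ₁).Valid n r₀ rs) :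
    Halts M (TM0.init (γ₀ :: replicate n γ₁)) := by
  obtain ⟨r₀, rs, h1, h2, h3, h4⟩ := h
  obtain ⟨q, f, hr⟩ := exists_rep M S γ₀ γ₁ r₀ (h1 r₀ mem_cons_self)
  obtain ⟨t, ts, us, rfl, hP0, hlen, hP1, hP2⟩ := h3
  have e0 : t = can q f 0 := hr.2.1 0 (by simp)
  have e1 : ∀ j, 1 ≤ j → j < (t :: (ts ++ us)).length →
      f j = (if j ≤ n then γ₁ else default) ∧ f (-j) = default := by
    intro j hj1 hj2
    obtain ⟨j, rfl⟩ : ∃ j', j = j' + 1 := ⟨j - 1, by omega⟩
    have e := hr.2.1 (j + 1) hj2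
    simp only [getElem_cons_succ] at e
    by_cases hj : j < ts.length
    · rw [getElem_append_left hj] at e
      have := hP1 _ (getElem_mem hj)
      rw [e] at this
      rw [if_pos (by omega)]
      exact this
    · rw [getElem_append_right (by omega)] at e
      have := hP2 _ (getElem_mem (n := j - ts.length) (by simp at hj2; omega))
      rw [e] at this
      rw [if_neg (by omega)]
      exact this
  have hlen' : n + 1 ≤ (t :: (ts ++ us)).length := by simp; omega
  refine halts_of_rows M S γ₀ γ₁ _ rs (fun r hr => h1 r (mem_cons_of_mem _ hr)) h2 h4 _ q ?_ ?_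
  · rw [e0] at hP0
    exact hP0.1.symm
  · have : (TM0.init (γ₀ :: replicate n γ₁) : TM0.Cfg Γ Λ).Tape.nth = f := by
      funext i
      obtain ⟨j, rfl | rfl⟩ := Int.eq_nat_or_neg i
      · rw [init_nth_nat, input_getD]
        by_cases hj : j = 0
        · subst hj
          rw [e0] at hP0
          exact hP0.2.symm
        · rw [if_neg hj]
          by_cases hj2 : j < (t :: (ts ++ us)).length
          · exact (e1 j (by omega) hj2).1.symm
          · rw [if_neg (by omega), hr.2.2 _ (by rw [Nat.abs_cast]; omega)]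
      · cases j with
        | zero =>
          rw [e0] at hP0
          exact hP0.2.symm
        | succ j =>
          rw [init_nth_neg]
          by_cases hj2 : j + 1 < (t :: (ts ++ us)).length
          · exact (e1 _ (by omega) hj2).2.symm
          · rw [hr.2.2 _ (by rw [abs_neg, Nat.abs_cast]; omega)]
    rw [this]
    exact hr

/-- The row of width `w` of a configuration. -/
def row {L : Type} (q : L) (f : ℤ → Γ) (w : ℕ) : List (Tile L Γ) := (range w).map (can q f)

theorem rep_row {L : Type} (q : L) (f : ℤ → Γ) (w : ℕ) (k : ℕ) (hk : k + 1 ≤ w)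
    (h : ∀ i : ℤ, (k : ℤ) ≤ |i| → f i = default) : Rep (row q f w) q f := by
  refine ⟨by simp [row]; omega, fun j hj => by simp [row], fun i hi => h i ?_⟩
  simp only [row, length_map, length_range] at hi
  omega

theorem rows_of_halts (hS : TM0.Supports M (S : Set Λ)) (c : TM0.Cfg Γ Λ) (h : Halts M c) :
    ∀ (q : S), c.q = q → ∃ t : ℕ, ∀ k w : ℕ,
      (∀ i : ℤ, (k : ℤ) ≤ |i| → c.Tape.nth i = default) → k + t + 1 ≤ w →
      ∃ rs : List (List (Tile S Γ)), (∀ r ∈ rs, (tmTS M S γ₀ γ₁).RowOK r) ∧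
        IsChain (Forall₂ (tmTS M S γ₀ γ₁).V) (row q c.Tape.nth w :: rs) ∧
        ∀ t ∈ ((row q c.Tape.nth w :: rs).getLast (by simp)).getLast?,
          (tmTS M S γ₀ γ₁).Halt t := by
  obtain ⟨b, hb, hb'⟩ := h
  induction hb using Relation.ReflTransGen.head_induction_on with
  | refl =>
    intro q hq
    refine ⟨0, fun k w hk hw => ⟨[], by simp, by simp, ?_⟩⟩
    intro t ht
    rw [getLast_singleton] at ht
    have := mem_of_getLast? ht
    simp only [row, mem_map] at this
    obtain ⟨j, -, rfl⟩ := this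
    have h1 := (step_none M b).1 hb'
    rw [hq] at h1
    exact h1
  | @head c c' hs _ ih =>
    intro q hq
    have hq' : c'.q ∈ (S : Set Λ) := TM0.step_supports M hS hs (by rw [hq]; exact q.2)
    obtain ⟨t, ht⟩ := ih ⟨c'.q, hq'⟩ rfl
    obtain ⟨a, ha, hf⟩ : ∃ a, M c.q (c.Tape.nth 0) = some (c'.q, a) ∧
        c'.Tape.nth = actF a c.Tape.nth := by
      cases hM : M c.q (c.Tape.nth 0) with
      | none => rw [← step_none] at hM; rw [hM] at hs; simp at hs
      | some p =>
        obtain ⟨c'', h1, h2, h3⟩ := step_some M c p.1 p.2 hM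
        rw [h1] at hs
        obtain rfl : c'' = c' := by simpa using hs
        exact ⟨p.2, by rw [h2], h3⟩
    refine ⟨t + 1, fun k w hk hw => ?_⟩
    have hk' : ∀ i : ℤ, ((k + 1 : ℕ) : ℤ) ≤ |i| → c'.Tape.nth i = default := by
      intro i hi
      rw [hf]
      exact actF_default a _ k (by omega) hk i (by omega)
    obtain ⟨rs, h1, h2, h3⟩ := ht (k + 1) w hk' (by omega)
    have hr' := rep_row (⟨c'.q, hq'⟩ : S) c'.Tape.nth w (k + 1) (by omega) hk'
    have hr := rep_row q c.Tape.nth w k (by omega) hk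
    refine ⟨row ⟨c'.q, hq'⟩ c'.Tape.nth w :: rs, ?_, ?_, by simpa using h3⟩
    · intro r hr
      rcases mem_cons.1 hr with rfl | hr
      · exact hr'.rowOK M S γ₀ γ₁
      · exact h1 r hr
    · rw [isChain_cons_cons]
      refine ⟨?_, h2⟩
      rw [hf] at hr' ⊢
      exact V_of_step M S γ₀ γ₁ hr hr' (by simp [row]) (by rw [← hq]; exact ha)

theorem valid_of_halts (hS : TM0.Supports M (S : Set Λ)) (n : ℕ)
    (h : Halts M (TM0.init (γ₀ :: replicate n γ₁))) :
    ∃ r₀ rs, (tmTS M S γ₀ γ₁).Valid n r₀ rs := by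
  obtain ⟨t, ht⟩ := rows_of_halts M S γ₀ γ₁ hS _ h ⟨default, hS.1⟩ rfl
  set f := (TM0.init (γ₀ :: replicate n γ₁) : TM0.Cfg Γ Λ).Tape.nth with hf
  have hpos : ∀ j : ℕ, f j = if j = 0 then γ₀ else if j ≤ n then γ₁ else default := by
    intro j; rw [hf, init_nth_nat, input_getD]
  have hneg : ∀ j : ℕ, f (-(j + 1 : ℕ)) = default := fun j => rfl
  have hk : ∀ i : ℤ, ((n + 1 : ℕ) : ℤ) ≤ |i| → f i = default := by
    intro i hi
    obtain ⟨j, rfl | rfl⟩ := Int.eq_nat_or_neg i
    · rw [Nat.abs_cast] at hi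
      rw [hpos, if_neg (by omega), if_neg (by omega)]
    · rw [abs_neg, Nat.abs_cast] at hi
      obtain ⟨j, rfl⟩ : ∃ j', j = j' + 1 := ⟨j - 1, by omega⟩
      exact hneg j
  obtain ⟨rs, h1, h2, h3⟩ := ht (n + 1) (n + 1 + t + 1) hk le_rfl
  refine ⟨_, rs, ?_, h2, ?_, h3⟩
  · intro r hr
    rcases mem_cons.1 hr with rfl | hr
    · exact (rep_row _ _ _ (n + 1) (by omega) hk).rowOK M S γ₀ γ₁
    · exact h1 r hr
  · let g := can (⟨default, hS.1⟩ : S) f
    refine ⟨g 0, (range n).map (fun j => g (j + 1)), (range (t + 1)).map (fun j => g (n + j + 1)),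
      ?_, ⟨rfl, ?_⟩, by simp, ?_, ?_⟩
    · have : n + 1 + t + 1 = (n + (t + 1)) + 1 := by ring
      rw [row, this, range_succ_eq_map, range_add]
      simp [g, Function.comp_def]
    · exact hpos 0
    · intro x hx
      obtain ⟨j, hj, rfl⟩ := mem_map.1 hx
      rw [mem_range] at hj
      refine ⟨?_, hneg j⟩
      have := hpos (j + 1)
      rw [if_neg (by omega), if_pos (by omega)] at this
      exact this
    · intro x hx
      obtain ⟨j, hj, rfl⟩ := mem_map.1 hx
      refine ⟨?_, hneg (n + j)⟩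
      have := hpos (n + j + 1)
      rw [if_neg (by omega), if_neg (by omega)] at this
      exact this

theorem exists_TS : ∃ (T : Type) (_ : Fintype T) (D : TS T),
    ¬ ComputablePred (fun n : ℕ => ∃ r₀ rs, D.Valid n r₀ rs) := by
  obtain ⟨Γ, Λ, _, _, _, M, S, γ₀, γ₁, hS, h⟩ := exists_TM
  refine ⟨Tile S Γ, Fintype.ofFinite _, tmTS M S γ₀ γ₁, ?_⟩
  have : (fun n : ℕ => ∃ r₀ rs, (tmTS M S γ₀ γ₁).Valid n r₀ rs) =
      fun n : ℕ => (TM0.eval M (γ₀ :: List.replicate n γ₁)).Dom := by
    funext n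
    rw [dom_iff_halts]
    exact propext ⟨halts_of_valid M S γ₀ γ₁ n, valid_of_halts M S γ₀ γ₁ hS n⟩
  rwa [this]

end Pool.Agent.P.MP_4ffd61_al
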