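import Pool.Agent.P.MP_4ffd61_al.Big

/-! Checking rectangular tilings with odometers that run in lock step. -/

set_option autoImplicit false

namespace Pool.Agent.P.MP_4ffd61_al

open Equiv List

/-- A tiling problem. -/
structure TS (T : Type) where
  H : T → T → Prop
  V : T → T → Prop
  St : T → Prop
  En : T → Prop
  Halt : T → Prop
  P0 : T → Prop
  P1 : T → Prop
  P2 : T → Prop

/-- Letters: a tile or a separator (`false` ends a row, `true` ends a block), and a counter bit. -/
abbrev YY (T : Type) := (T ⊕ Bool) × Bool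

namespace TS

variable {T : Type} (D : TS T)

def RowOK (r : List T) : Prop :=
  r ≠ [] ∧ (∀ t ∈ r.head?, D.St t) ∧ IsChain D.H r ∧ ∀ t ∈ r.getLast?, D.En t

def First (n : ℕ) (r : List T) : Prop :=
  ∃ t ts us, r = t :: (ts ++ us) ∧ D.P0 t ∧ ts.length = n ∧ (∀ x ∈ ts, D.P1 x) ∧ ∀ x ∈ us, D.P2 x

def Valid (n : ℕ) (r₀ : List T) (rs : List (List T)) : Prop :=
  (∀ r ∈ r₀ :: rs, D.RowOK r) ∧ IsChain (Forall₂ D.V) (r₀ :: rs) ∧ D.First n r₀ ∧
    ∀ t ∈ ((r₀ :: rs).getLast (by simp)).getLast?, D.Halt t

end TS

section odometers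

variable {T : Type}

/-- The odometers on the rows. -/
def Aodo (T : Type) : Aut Bool (YY T) where
  nx
    | c, (Sum.inl _, b) => c && b
    | _, (Sum.inr _, _) => true
  out c := Function.Involutive.toPerm
    (fun y => match y with
      | (Sum.inl t, b) => (Sum.inl t, xor b c)
      | (Sum.inr s, b) => (Sum.inr s, b))
    (by rintro ⟨t | s, b⟩ <;> simp)

/-- A row of tiles with counter bits as a word. -/
def emb (r : List (T × Bool)) : List (YY T) := r.map (fun p => (Sum.inl p.1, p.2))

/-- A block of rows as a word. -/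
def blk (r₀ : List (T × Bool)) (rs : List (Bool × List (T × Bool))) : List (YY T) :=
  emb r₀ ++ rs.flatMap (fun p => (Sum.inr false, p.1) :: emb p.2)

theorem blk_nil (r₀ : List (T × Bool)) : blk r₀ [] = emb r₀ := by simp [blk]

theorem blk_cons (r₀ : List (T × Bool)) (p : Bool × List (T × Bool))
    (rs : List (Bool × List (T × Bool))) :
    blk r₀ (p :: rs) = emb r₀ ++ (Sum.inr false, p.1) :: blk p.2 rs := by simp [blk]

/-- The odometer on one row. -/
def odoR : List (T × Bool) → List (T × Bool)
  | [] => []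
  | (t, false) :: r => (t, true) :: r
  | (t, true) :: r => (t, false) :: odoR r

theorem odoR_fst (r : List (T × Bool)) : (odoR r).map Prod.fst = r.map Prod.fst := by
  induction r with
  | nil => rfl
  | cons p r ih => obtain ⟨t, b⟩ := p; cases b <;> simp [odoR, ih]

theorem odoR_snd (r : List (T × Bool)) : (odoR r).map Prod.snd = odo (r.map Prod.snd) := by
  induction r with
  | nil => rfl
  | cons p r ih => obtain ⟨t, b⟩ := p; cases b <;> simp [odoR, ih]

theorem odoR_iter_fst (s : ℕ) (r : List (T × Bool)) :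
    (odoR^[s] r).map Prod.fst = r.map Prod.fst := by
  induction s generalizing r with
  | zero => rfl
  | succ s ih => rw [Function.iterate_succ_apply, ih, odoR_fst]

theorem odoR_iter_snd (s : ℕ) (r : List (T × Bool)) :
    (odoR^[s] r).map Prod.snd = odo^[s] (r.map Prod.snd) := by
  induction s generalizing r with
  | zero => rfl
  | succ s ih => rw [Function.iterate_succ_apply, ih, odoR_snd, Function.iterate_succ_apply]

theorem Aodo_false_emb (r : List (T × Bool)) (s b : Bool) (w : List (YY T)) :
    (Aodo T).act false (emb r ++ (Sum.inr s, b) :: w) =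
      emb r ++ (Sum.inr s, b) :: (Aodo T).act true w := by
  induction r with
  | nil => rfl
  | cons p r ih =>
    obtain ⟨t, c⟩ := p
    have : (Aodo T).nx false (Sum.inl t, c) = false := rfl
    simp only [emb, map_cons, cons_append, Aut.act_cons, this] at ih ⊢
    rw [ih]
    simp [Aodo]

theorem Aodo_true_emb (r : List (T × Bool)) (s b : Bool) (w : List (YY T)) :
    (Aodo T).act true (emb r ++ (Sum.inr s, b) :: w) =
      emb (odoR r) ++ (Sum.inr s, b) :: (Aodo T).act true w := by
  induction r with
  | nil => rfl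
  | cons p r ih =>
    obtain ⟨t, c⟩ := p
    cases c with
    | false =>
      have h := Aodo_false_emb r s b w
      have : (Aodo T).nx true (Sum.inl t, false) = false := rfl
      simp only [emb, map_cons, cons_append, Aut.act_cons, this, odoR] at h ⊢
      rw [h]
      simp [Aodo]
    | true =>
      have : (Aodo T).nx true (Sum.inl t, true) = true := rfl
      simp only [emb, map_cons, cons_append, Aut.act_cons, this, odoR] at ih ⊢
      rw [ih]
      simp [Aodo]

theorem Aodo_true_blk (r₀ : List (T × Bool)) (rs : List (Bool × List (T × Bool))) (s b : Bool)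
    (w : List (YY T)) :
    (Aodo T).act true (blk r₀ rs ++ (Sum.inr s, b) :: w) =
      blk (odoR r₀) (rs.map fun p => (p.1, odoR p.2)) ++ (Sum.inr s, b) :: (Aodo T).act true w := by
  induction rs generalizing r₀ with
  | nil => simp only [blk_nil, map_nil, Aodo_true_emb]
  | cons p rs ih =>
    simp only [blk_cons, map_cons, append_assoc, cons_append, Aodo_true_emb, ih]

theorem Aodo_sep (c : Bool) (u : List (YY T)) (s b : Bool) (w : List (YY T)) :
    (Aodo T).act c (u ++ (Sum.inr s, b) :: w) =
      (Aodo T).act c u ++ (Sum.inr s, b) :: (Aodo T).act true w := by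
  rw [Aut.act_append]; rfl

theorem exists_blk (B : List (YY T)) (hB : ∀ y ∈ B, y.1 ≠ Sum.inr true) :
    ∃ r₀ rs, B = blk r₀ rs := by
  induction B with
  | nil => exact ⟨[], [], rfl⟩
  | cons y B ih =>
    obtain ⟨r₀, rs, rfl⟩ := ih (fun z hz => hB z (mem_cons_of_mem _ hz))
    obtain ⟨t | s, b⟩ := y
    · exact ⟨(t, b) :: r₀, rs, by simp [blk, emb]⟩
    · cases s with
      | true => exact absurd rfl (hB _ mem_cons_self)
      | false => exact ⟨[], (b, r₀) :: rs, by simp [blk, emb]⟩

theorem blk_free (r₀ : List (T × Bool)) (rs : List (Bool × List (T × Bool))) :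
    ∀ y ∈ blk r₀ rs, y.1 ≠ Sum.inr true := by
  intro y hy
  simp only [blk, emb, mem_append, mem_map, mem_flatMap, mem_cons] at hy
  rcases hy with ⟨p, -, rfl⟩ | ⟨p, -, rfl | ⟨q, -, rfl⟩⟩ <;> simp

/-- A word that is empty or ends a block. -/
def Start (u : List (YY T)) : Prop := u = [] ∨ ∃ u₁ b, u = u₁ ++ [(Sum.inr true, b)]

theorem exists_start (u : List (YY T)) :
    ∃ u₀ B, u = u₀ ++ B ∧ Start u₀ ∧ ∀ y ∈ B, y.1 ≠ Sum.inr true := by
  induction u using List.reverseRecOn with
  | nil => exact ⟨[], [], rfl, Or.inl rfl, by simp⟩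
  | append_singleton u y ih =>
    by_cases hy : y.1 = Sum.inr true
    · refine ⟨u ++ [y], [], by simp, Or.inr ⟨u, y.2, ?_⟩, by simp⟩
      rw [← hy]
    · obtain ⟨u₀, B, rfl, h1, h2⟩ := ih
      refine ⟨u₀, B ++ [y], by simp, h1, fun z hz => ?_⟩
      rcases mem_append.1 hz with hz | hz
      · exact h2 z hz
      · rw [mem_singleton.1 hz]; exact hy

theorem Aodo_start (u₀ : List (YY T)) (h : Start u₀) :
    ∃ u₀', Start u₀' ∧ ∀ w, (Aodo T).act true (u₀ ++ w) = u₀' ++ (Aodo T).act true w := by
  rcases h with rfl | ⟨u₁, b, rfl⟩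
  · exact ⟨[], Or.inl rfl, fun w => rfl⟩
  · refine ⟨(Aodo T).act true u₁ ++ [(Sum.inr true, b)], Or.inr ⟨_, _, rfl⟩, fun w => ?_⟩
    simp only [append_assoc, singleton_append, Aodo_sep]

theorem Aodo_iter (s : ℕ) (u₀ : List (YY T)) (h : Start u₀) (r₀ : List (T × Bool))
    (rs : List (Bool × List (T × Bool))) (b : Bool) :
    ∃ u₀', Start u₀' ∧ (Aodo T).actL (replicate s true) (u₀ ++ blk r₀ rs ++ [(Sum.inr true, b)]) =
      u₀' ++ blk (odoR^[s] r₀) (rs.map fun p => (p.1, odoR^[s] p.2)) ++ [(Sum.inr true, b)] := by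
  induction s with
  | zero => exact ⟨u₀, h, by simp⟩
  | succ s ih =>
    obtain ⟨u₁, h1, h2⟩ := ih
    obtain ⟨u₂, h3, h4⟩ := Aodo_start u₁ h1
    refine ⟨u₂, h3, ?_⟩
    rw [replicate_succ, Aut.actL_cons, h2, append_assoc, h4, Aodo_true_blk]
    simp [Function.iterate_succ_apply', Function.comp_def]

/-- The tile under the first nonzero counter bit. -/
def markB : List T → List Bool → Option T
  | t :: ts, b :: bs => if b then some t else markB ts bs
  | _, _ => none

theorem markB_zero (ts : List T) (L : ℕ) : markB ts (replicate L false) = none := by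
  induction L generalizing ts with
  | zero => cases ts <;> rfl
  | succ L ih => cases ts <;> simp [markB, replicate_succ, ih]

theorem markB_one (ts : List T) (j : ℕ) (bs : List Bool) :
    markB ts (replicate j false ++ true :: bs) = ts[j]? := by
  induction j generalizing ts with
  | zero => cases ts <;> simp [markB]
  | succ j ih => cases ts <;> simp [markB, replicate_succ, ih]

theorem markB_none (ts : List T) (bs : List Bool) (hl : ts.length = bs.length)
    (h : markB ts bs = none) : bs = replicate bs.length false := by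
  induction ts generalizing bs with
  | nil => cases bs <;> simp_all
  | cons t ts ih =>
    cases bs with
    | nil => rfl
    | cons b bs =>
      cases b with
      | true => simp [markB] at h
      | false =>
        simp only [markB] at h
        rw [length_cons, replicate_succ, ← ih bs (by simpa using hl) (by simpa using h)]

/-- The marked tile of a row. -/
def mark (r : List (T × Bool)) : Option T := markB (r.map Prod.fst) (r.map Prod.snd)

/-- Compatibility of the marked tiles of two consecutive rows. -/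
def Vok (V : T → T → Prop) : Option T → Option T → Prop
  | none, none => True
  | some t, some t' => V t t'
  | _, _ => False

theorem Vok_of_forall₂ (V : T → T → Prop) (ts ts' : List T) (h : Forall₂ V ts ts')
    (bs : List Bool) : Vok V (markB ts bs) (markB ts' bs) := by
  induction h generalizing bs with
  | nil => trivial
  | cons h _ ih =>
    cases bs with
    | nil => trivial
    | cons b bs =>
      cases b with
      | true => exact h
      | false => exact ih bs

theorem forall₂_of_Vok (V : T → T → Prop) (r r' : List (T × Bool))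
    (h : ∀ s, Vok V (mark (odoR^[s] r)) (mark (odoR^[s] r'))) :
    Forall₂ V (r.map Prod.fst) (r'.map Prod.fst) := by
  simp only [mark, odoR_iter_fst, odoR_iter_snd] at h
  have hl : (r.map Prod.fst).length = (r.map Prod.snd).length := by simp
  have hl' : (r'.map Prod.fst).length = (r'.map Prod.snd).length := by simp
  generalize r.map Prod.fst = ts at h hl ⊢
  generalize r'.map Prod.fst = ts' at h hl' ⊢
  generalize r.map Prod.snd = β at h hl
  generalize r'.map Prod.snd = β' at h hl'
  obtain ⟨j₀, hj⟩ := odo_exists_zero β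
  have hj' : odo^[j₀] β' = replicate β'.length false := by
    have h0 := h j₀
    rw [hj, markB_zero] at h0
    have h1 : markB ts' (odo^[j₀] β') = none := by
      cases hm : markB ts' (odo^[j₀] β') with
      | none => rfl
      | some t => rw [hm] at h0; exact h0.elim
    have := markB_none _ _ (by simpa using hl') h1
    simpa using this
  have key : ∀ j, Vok V (markB ts (odo^[2 ^ j] (replicate β.length false)))
      (markB ts' (odo^[2 ^ j] (replicate β'.length false))) := by
    intro j
    have := h (2 ^ j + j₀)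
    rwa [Function.iterate_add_apply, Function.iterate_add_apply, hj, hj'] at this
  have hlen : β.length = β'.length := by
    rcases lt_trichotomy β.length β'.length with h1 | h1 | h1
    · have := key β.length
      rw [odo_pow_ge _ _ le_rfl, odo_pow_lt _ _ h1, markB_zero, markB_one,
        getElem?_eq_getElem (by omega)] at this
      exact this.elim
    · exact h1
    · have := key β'.length
      rw [odo_pow_ge β'.length _ le_rfl, odo_pow_lt _ _ h1, markB_zero, markB_one,
        getElem?_eq_getElem (by omega)] at this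
      exact this.elim
  refine forall₂_of_length_eq_of_get (by omega) (fun j h1 h2 => ?_)
  have := key j
  rw [odo_pow_lt _ _ (by omega), odo_pow_lt _ _ (by omega), markB_one, markB_one,
    getElem?_eq_getElem h1, getElem?_eq_getElem h2] at this
  exact this

end odometers

section checkers

variable {T : Type}

/-- Disjoint union of checkers. -/
def Chk.sum {S₁ S₂ Y : Type} (C₁ : Chk S₁ Y) (C₂ : Chk S₂ Y) : Chk (S₁ ⊕ S₂) Y where
  nx
    | Sum.inl s, y => Sum.inl (C₁.nx s y)
    | Sum.inr s, y => Sum.inr (C₂.nx s y)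
  rv
    | Sum.inl s, y => C₁.rv s y
    | Sum.inr s, y => C₂.rv s y

theorem Chk.sum_Rev {S₁ S₂ Y : Type} (C₁ : Chk S₁ Y) (C₂ : Chk S₂ Y) (w : List Y) :
    (C₁.sum C₂).Rev w ↔ C₁.Rev w ∨ C₂.Rev w := by
  have h1 : ∀ s u, (C₁.sum C₂).run (Sum.inl s) u = Sum.inl (C₁.run s u) := by
    intro s u
    induction u generalizing s with
    | nil => rfl
    | cons y u ih => exact ih _
  have h2 : ∀ s u, (C₁.sum C₂).run (Sum.inr s) u = Sum.inr (C₂.run s u) := by
    intro s u
    induction u generalizing s with
    | nil => rfl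
    | cons y u ih => exact ih _
  constructor
  · rintro ⟨s | s, u, y, rfl, h⟩
    · rw [h1] at h; exact Or.inl ⟨s, u, y, rfl, h⟩
    · rw [h2] at h; exact Or.inr ⟨s, u, y, rfl, h⟩
  · rintro (⟨s, u, y, rfl, h⟩ | ⟨s, u, y, rfl, h⟩)
    · exact ⟨Sum.inl s, u, y, rfl, by rw [h1]; exact h⟩
    · exact ⟨Sum.inr s, u, y, rfl, by rw [h2]; exact h⟩

/-- The letter ends a block. -/
def isEnd : YY T → Bool
  | (Sum.inr true, _) => true
  | _ => false

theorem isEnd_false {y : YY T} (h : y.1 ≠ Sum.inr true) : isEnd y = false := by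
  obtain ⟨t | s, b⟩ := y
  · rfl
  · cases s
    · rfl
    · exact absurd rfl h

/-- The checker that reveals all bits except those at the ends of blocks. -/
def C0 (T : Type) : Chk Unit (YY T) where
  nx _ _ := ()
  rv _ y := !isEnd y

/-- A checker that restarts after each block. -/
def blockChk {S : Type} (s₀ : S) (step : S → YY T → S) (bad : S → Bool) : Chk S (YY T) where
  nx s y := if isEnd y then s₀ else step s y
  rv s y := isEnd y && bad s

theorem blockChk_run {S : Type} (s₀ : S) (step : S → YY T → S) (bad : S → Bool) (s : S)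
    (B : List (YY T)) (hB : ∀ y ∈ B, y.1 ≠ Sum.inr true) :
    (blockChk s₀ step bad).run s B = B.foldl step s := by
  induction B generalizing s with
  | nil => rfl
  | cons y B ih =>
    rw [Chk.run_cons, ih _ (fun z hz => hB z (mem_cons_of_mem _ hz)), foldl_cons]
    simp [blockChk, isEnd_false (hB y mem_cons_self)]

theorem blockChk_Rev {S : Type} (s₀ : S) (step : S → YY T → S) (bad : S → Bool)
    (u₀ B : List (YY T)) (h : Start u₀) (hB : ∀ y ∈ B, y.1 ≠ Sum.inr true) (b : Bool)
    (hbad : bad (B.foldl step s₀) = true) :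
    (blockChk s₀ step bad).Rev (u₀ ++ B ++ [(Sum.inr true, b)]) := by
  refine ⟨s₀, u₀ ++ B, _, rfl, ?_⟩
  have : (blockChk s₀ step bad).run s₀ u₀ = s₀ := by
    rcases h with rfl | ⟨u₁, b, rfl⟩
    · rfl
    · rw [Chk.run_append]; rfl
  rw [Chk.run_append, this, blockChk_run _ _ _ _ _ hB]
  simpa [blockChk, isEnd] using hbad

theorem blockChk_not_Rev {S : Type} (s₀ : S) (step : S → YY T → S) (bad : S → Bool)
    (u B : List (YY T)) (hB : ∀ y ∈ B, y.1 ≠ Sum.inr true) (b b' : Bool)
    (hbad : bad (B.foldl step s₀) = false) :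
    ¬ (blockChk s₀ step bad).Rev (u ++ (Sum.inr true, b') :: (B ++ [(Sum.inr true, b)])) := by
  rintro ⟨s, u', y, h1, h2⟩
  have h3 : u ++ (Sum.inr true, b') :: (B ++ [(Sum.inr true, b)]) =
      (u ++ (Sum.inr true, b') :: B) ++ [(Sum.inr true, b)] := by simp
  rw [h3] at h1
  obtain ⟨rfl, h4⟩ := append_inj' h1 rfl
  rw [Chk.run_append, Chk.run_cons,
    show (blockChk s₀ step bad).nx _ (Sum.inr true, b') = s₀ from rfl,
    blockChk_run _ _ _ _ _ hB] at h2
  simp [blockChk, hbad] at h2

variable (D : TS T)

/-- Horizontal compatibility of letters. -/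
def TS.Hs : T ⊕ Bool → T ⊕ Bool → Prop
  | Sum.inl t, Sum.inl t' => D.H t t'
  | Sum.inr _, Sum.inl t => D.St t
  | Sum.inl t, Sum.inr s => D.En t ∧ (s = true → D.Halt t)
  | Sum.inr _, Sum.inr _ => False

open Classical in
noncomputable def stepH (s : (T ⊕ Bool) × Bool) (y : YY T) : (T ⊕ Bool) × Bool :=
  (y.1, s.2 || !decide (D.Hs s.1 y.1))

open Classical in
noncomputable def badH (s : (T ⊕ Bool) × Bool) : Bool := s.2 || !decide (D.Hs s.1 (Sum.inr true))

theorem badH_iff (s : (T ⊕ Bool) × Bool) (B : List (YY T)) :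
    badH D (B.foldl (stepH D) s) = false ↔
      s.2 = false ∧ IsChain D.Hs (s.1 :: (B.map Prod.fst ++ [Sum.inr true])) := by
  induction B generalizing s with
  | nil => simp [badH]
  | cons y B ih =>
    rw [foldl_cons, ih]
    simp [stepH, and_assoc]

theorem row_chain (s s' : Bool) (r : List T) :
    IsChain D.Hs (Sum.inr s :: (r.map Sum.inl ++ [Sum.inr s'])) ↔
      D.RowOK r ∧ (s' = true → ∀ t ∈ r.getLast?, D.Halt t) := by
  cases r with
  | nil => simp [TS.Hs, TS.RowOK]
  | cons t r =>
    rw [map_cons, cons_append, isChain_cons_cons, ← cons_append, ← map_cons, isChain_append,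
      isChain_map, getLast?_map]
    have h : ∃ t', (t :: r).getLast? = some t' := ⟨_, getLast?_eq_some_getLast (by simp)⟩
    obtain ⟨t', ht'⟩ := h
    simp only [TS.RowOK, ht', TS.Hs]
    simp [and_assoc]

theorem emb_fst (r : List (T × Bool)) : (emb r).map Prod.fst = (r.map Prod.fst).map Sum.inl := by
  simp [emb]

theorem blk_chain (s : Bool) (r₀ : List (T × Bool)) (rs : List (Bool × List (T × Bool))) :
    IsChain D.Hs (Sum.inr s :: ((blk r₀ rs).map Prod.fst ++ [Sum.inr true])) ↔
      (∀ r ∈ r₀.map Prod.fst :: rs.map (fun p => p.2.map Prod.fst), D.RowOK r) ∧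
      ∀ t ∈ ((r₀.map Prod.fst :: rs.map (fun p => p.2.map Prod.fst)).getLast (by simp)).getLast?,
        D.Halt t := by
  induction rs generalizing r₀ s with
  | nil =>
    rw [blk_nil, emb_fst, row_chain]
    simp
  | cons p rs ih =>
    rw [blk_cons, map_append, map_cons, append_assoc, cons_append, isChain_cons_split, emb_fst,
      row_chain, ih]
    simp [and_assoc]

open Classical in
noncomputable def badV (s : Option (Option T) × Option T × Bool) : Bool :=
  s.2.2 || match s.1 with
    | none => false
    | some c => !decide (Vok D.V c s.2.1)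

noncomputable def stepV (s : Option (Option T) × Option T × Bool) :
    YY T → Option (Option T) × Option T × Bool
  | (Sum.inl t, b) => (s.1, s.2.1.or (if b then some t else none), s.2.2)
  | (Sum.inr _, _) => (some s.2.1, none, badV D s)

theorem stepV_emb (s : Option (Option T) × Option T × Bool) (r : List (T × Bool)) :
    (emb r).foldl (stepV D) s = (s.1, s.2.1.or (mark r), s.2.2) := by
  induction r generalizing s with
  | nil => simp [emb, mark, markB]
  | cons p r ih =>
    obtain ⟨t, b⟩ := p
    have : emb ((t, b) :: r) = (Sum.inl t, b) :: emb r := rfl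
    rw [this, foldl_cons, ih]
    cases b <;> simp [stepV, mark, markB]

theorem badV_some (c : Option T) (e : Bool) (r₀ : List (T × Bool))
    (rs : List (Bool × List (T × Bool))) :
    badV D ((blk r₀ rs).foldl (stepV D) (some c, none, e)) = false ↔
      e = false ∧ IsChain (Vok D.V) (c :: mark r₀ :: rs.map (fun p => mark p.2)) := by
  induction rs generalizing r₀ c e with
  | nil => rw [blk_nil, stepV_emb]; simp [badV]
  | cons p rs ih =>
    rw [blk_cons, foldl_append, stepV_emb, foldl_cons]
    simp only [stepV, Option.none_or]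
    rw [ih]
    simp [badV, and_assoc]

theorem badV_iff (r₀ : List (T × Bool)) (rs : List (Bool × List (T × Bool))) :
    badV D ((blk r₀ rs).foldl (stepV D) (none, none, false)) = false ↔
      IsChain (Vok D.V) (mark r₀ :: rs.map (fun p => mark p.2)) := by
  cases rs with
  | nil => rw [blk_nil, stepV_emb]; simp [badV]
  | cons p rs =>
    rw [blk_cons, foldl_append, stepV_emb, foldl_cons]
    simp only [stepV, Option.none_or]
    rw [badV_some]
    simp [badV]

/-- The counter that checks the first row. -/
def cstep (n j : ℕ) (sep p0 p1 p2 : Bool) : ℕ :=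
  if j = n + 3 then n + 3 else if j = n + 2 then n + 2 else
  if sep then (if j = n + 1 then n + 2 else n + 3) else
  if j = 0 then (if p0 then 1 else n + 3) else
  if j ≤ n then (if p1 then j + 1 else n + 3) else (if p2 then n + 1 else n + 3)

theorem cstep_lt (n j : ℕ) (sep p0 p1 p2 : Bool) : cstep n j sep p0 p1 p2 < n + 4 := by
  unfold cstep; split_ifs <;> omega

open Classical in
/-- The class of a letter, as seen by the counter. -/
noncomputable def cls : YY T → Bool × Bool × Bool × Bool
  | (Sum.inl t, _) => (false, decide (D.P0 t), decide (D.P1 t), decide (D.P2 t))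
  | (Sum.inr _, _) => (true, false, false, false)

noncomputable def stepN (n j : ℕ) (y : YY T) : ℕ :=
  cstep n j (cls D y).1 (cls D y).2.1 (cls D y).2.2.1 (cls D y).2.2.2

noncomputable def stepC (n : ℕ) (j : Fin (n + 4)) (y : YY T) : Fin (n + 4) :=
  ⟨stepN D n j y, cstep_lt _ _ _ _ _ _⟩

def badC (n : ℕ) (j : Fin (n + 4)) : Bool := !decide (j.1 = n + 1 ∨ j.1 = n + 2)

theorem stepC_fold (n : ℕ) (j : Fin (n + 4)) (B : List (YY T)) :
    (B.foldl (stepC D n) j).1 = B.foldl (stepN D n) j.1 := by
  induction B generalizing j with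
  | nil => rfl
  | cons y B ih => rw [foldl_cons, ih]; rfl

theorem stepN_err (n : ℕ) (B : List (YY T)) : B.foldl (stepN D n) (n + 3) = n + 3 := by
  induction B with
  | nil => rfl
  | cons y B ih => rw [foldl_cons]; simpa [stepN, cstep] using ih

theorem stepN_idle (n : ℕ) (B : List (YY T)) : B.foldl (stepN D n) (n + 2) = n + 2 := by
  induction B with
  | nil => rfl
  | cons y B ih => rw [foldl_cons]; simpa [stepN, cstep] using ih

theorem stepN_emb (n : ℕ) (r : List (T × Bool)) (j : ℕ) (h1 : 1 ≤ j) (h2 : j ≤ n + 1) :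
    (emb r).foldl (stepN D n) j ≠ n + 2 ∧
    ((emb r).foldl (stepN D n) j = n + 1 ↔ ∃ ts us, r.map Prod.fst = ts ++ us ∧
      ts.length + j = n + 1 ∧ (∀ x ∈ ts, D.P1 x) ∧ ∀ x ∈ us, D.P2 x) := by
  induction r generalizing j with
  | nil =>
    refine ⟨by simp [emb]; omega, ?_⟩
    simp only [emb, map_nil, foldl_nil]
    constructor
    · intro h; exact ⟨[], [], rfl, by simpa using h, by simp, by simp⟩
    · rintro ⟨ts, us, h, h', -⟩
      have := congrArg length h
      simp at this; omega
  | cons p r ih =>
    obtain ⟨t, b⟩ := p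
    have : emb ((t, b) :: r) = (Sum.inl t, b) :: emb r := rfl
    rw [this, foldl_cons]
    by_cases hj : j ≤ n
    · by_cases hp : D.P1 t
      · have h3 : stepN D n j (Sum.inl t, b) = j + 1 := by
          simp only [stepN, cstep, cls, hp]
          split_ifs <;> simp_all
        rw [h3]
        refine ⟨(ih _ (by omega) (by omega)).1, (ih _ (by omega) (by omega)).2.trans ?_⟩
        constructor
        · rintro ⟨ts, us, h, h', h4, h5⟩
          exact ⟨t :: ts, us, by simp [h], by simp; omega, by simpa [hp] using h4, h5⟩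
        · rintro ⟨ts, us, h, h', h4, h5⟩
          cases ts with
          | nil => simp at h'; omega
          | cons t' ts =>
            simp only [map_cons, cons_append, cons.injEq] at h
            exact ⟨ts, us, h.2, by simp at h'; omega, fun x hx => h4 x (mem_cons_of_mem _ hx), h5⟩
      · have h3 : stepN D n j (Sum.inl t, b) = n + 3 := by
          simp only [stepN, cstep, cls, hp]
          split_ifs <;> simp_all
        rw [h3, stepN_err]
        refine ⟨by omega, by omega, ?_⟩
        rintro ⟨ts, us, h, h', h4, h5⟩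
        cases ts with
        | nil => simp at h'; omega
        | cons t' ts =>
          simp only [map_cons, cons_append, cons.injEq] at h
          exact absurd (h4 t' mem_cons_self) (h.1 ▸ hp)
    · obtain rfl : j = n + 1 := by omega
      by_cases hp : D.P2 t
      · have h3 : stepN D n (n + 1) (Sum.inl t, b) = n + 1 := by
          simp [stepN, cstep, cls, hp]
        rw [h3]
        refine ⟨(ih _ (by omega) (by omega)).1, (ih _ (by omega) (by omega)).2.trans ?_⟩
        constructor
        · rintro ⟨ts, us, h, h', h4, h5⟩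
          obtain rfl : ts = [] := length_eq_zero_iff.1 (by omega)
          exact ⟨[], t :: us, by simp [h], h', h4, by simpa [hp] using h5⟩
        · rintro ⟨ts, us, h, h', h4, h5⟩
          obtain rfl : ts = [] := length_eq_zero_iff.1 (by omega)
          simp only [map_cons, nil_append] at h
          subst h
          exact ⟨[], _, rfl, h', h4, fun x hx => h5 x (mem_cons_of_mem _ hx)⟩
      · have h3 : stepN D n (n + 1) (Sum.inl t, b) = n + 3 := by
          simp [stepN, cstep, cls, hp]
        rw [h3, stepN_err]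
        refine ⟨by omega, by omega, ?_⟩
        rintro ⟨ts, us, h, h', h4, h5⟩
        obtain rfl : ts = [] := length_eq_zero_iff.1 (by omega)
        simp only [map_cons, nil_append] at h
        subst h
        exact absurd (h5 t mem_cons_self) hp

theorem stepN_first (n : ℕ) (r : List (T × Bool)) :
    (emb r).foldl (stepN D n) 0 ≠ n + 2 ∧
    ((emb r).foldl (stepN D n) 0 = n + 1 ↔ D.First n (r.map Prod.fst)) := by
  cases r with
  | nil => simp [emb, TS.First]
  | cons p r =>
    obtain ⟨t, b⟩ := p
    have : emb ((t, b) :: r) = (Sum.inl t, b) :: emb r := rfl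
    rw [this, foldl_cons]
    by_cases hp : D.P0 t
    · have h3 : stepN D n 0 (Sum.inl t, b) = 1 := by simp [stepN, cstep, cls, hp]
      rw [h3]
      have := stepN_emb D n r 1 le_rfl (by omega)
      refine ⟨this.1, this.2.trans ?_⟩
      constructor
      · rintro ⟨ts, us, h, h', h4, h5⟩
        exact ⟨t, ts, us, by simp [h], hp, by omega, h4, h5⟩
      · rintro ⟨t', ts, us, h, -, h', h4, h5⟩
        simp only [map_cons, cons.injEq] at h
        exact ⟨ts, us, h.2, by omega, h4, h5⟩
    · have h3 : stepN D n 0 (Sum.inl t, b) = n + 3 := by simp [stepN, cstep, cls, hp]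
      rw [h3, stepN_err]
      refine ⟨by omega, by omega, ?_⟩
      rintro ⟨t', ts, us, h, h', -⟩
      simp only [map_cons, cons.injEq] at h
      exact absurd h' (h.1 ▸ hp)

theorem badC_iff (n : ℕ) (r₀ : List (T × Bool)) (rs : List (Bool × List (T × Bool))) :
    badC n ((blk r₀ rs).foldl (stepC D n) 0) = false ↔ D.First n (r₀.map Prod.fst) := by
  have h := stepN_first D n r₀
  simp only [badC, stepC_fold, Bool.not_eq_eq_eq_not, Bool.not_false, decide_eq_true_eq,
    Fin.val_zero]
  rw [← h.2]
  cases rs with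
  | nil => rw [blk_nil]; have := h.1; omega
  | cons p rs =>
    rw [blk_cons, foldl_append, foldl_cons]
    have h1 := h.1
    generalize foldl (stepN D n) 0 (emb r₀) = j at h1
    by_cases hj : j = n + 1
    · have : stepN D n j (Sum.inr false, p.1) = n + 2 := by simp [stepN, cstep, cls, hj]
      rw [this, stepN_idle]; simp [hj]
    · have : stepN D n j (Sum.inr false, p.1) = n + 3 := by simp [stepN, cstep, cls, hj, h1]
      rw [this, stepN_err]; simp [hj]

/-- The checkers that do not depend on the input. -/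
noncomputable def CFix :
    Chk (Unit ⊕ ((T ⊕ Bool) × Bool) ⊕ (Option (Option T) × Option T × Bool)) (YY T) :=
  (C0 T).sum ((blockChk (Sum.inr true, false) (stepH D) (badH D)).sum
    (blockChk (none, none, false) (stepV D) (badV D)))

/-- The checker that depends on the input. -/
noncomputable def CCnt (n : ℕ) : Chk (Fin (n + 4)) (YY T) := blockChk 0 (stepC D n) (badC n)

theorem isChain_forall {α ι : Type} (R : ι → α → α → Prop) (l : List α)
    (h : ∀ i, IsChain (R i) l) : IsChain (fun a b => ∀ i, R i a b) l := by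
  rw [isChain_iff_getElem]
  intro j hj i
  exact isChain_iff_getElem.1 (h i) j hj

theorem tiles_rev (n : ℕ) (hD : ¬ ∃ r₀ rs, D.Valid n r₀ rs) (u : List (YY T)) (y : YY T) :
    ∃ ps : List Bool, (CFix D).Rev ((Aodo T).actL ps (u ++ [y])) ∨
      (CCnt D n).Rev ((Aodo T).actL ps (u ++ [y])) := by
  by_cases hy : y.1 = Sum.inr true
  swap
  · refine ⟨[], Or.inl ?_⟩
    rw [CFix, Chk.sum_Rev]
    exact Or.inl ⟨(), u, y, rfl, by simp [C0, isEnd_false hy]⟩
  obtain ⟨y, b⟩ := y
  simp only at hy
  subst hy
  obtain ⟨u₀, B, rfl, h₀, hB⟩ := exists_start u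
  obtain ⟨r₀, rs, rfl⟩ := exists_blk B hB
  by_contra hcon
  push Not at hcon
  apply hD
  have hH : badH D ((blk r₀ rs).foldl (stepH D) (Sum.inr true, false)) = false := by
    by_contra h
    apply (hcon []).1
    rw [CFix, Chk.sum_Rev, Chk.sum_Rev]
    exact Or.inr (Or.inl (blockChk_Rev _ _ _ _ _ h₀ hB _ (by simpa using h)))
  have hC : badC n ((blk r₀ rs).foldl (stepC D n) 0) = false := by
    by_contra h
    exact (hcon []).2 (blockChk_Rev _ _ _ _ _ h₀ hB _ (by simpa using h))
  have hV : ∀ s, IsChain (fun r r' => Vok D.V (mark (odoR^[s] r)) (mark (odoR^[s] r')))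
      (r₀ :: rs.map Prod.snd) := by
    intro s
    obtain ⟨u₁, h1, h2⟩ := Aodo_iter s u₀ h₀ r₀ rs b
    have h3 : badV D ((blk (odoR^[s] r₀) (rs.map fun p => (p.1, odoR^[s] p.2))).foldl (stepV D)
        (none, none, false)) = false := by
      by_contra h
      apply (hcon (replicate s true)).1
      rw [h2, CFix, Chk.sum_Rev, Chk.sum_Rev]
      exact Or.inr (Or.inr (blockChk_Rev _ _ _ _ _ h1 (blk_free _ _) _ (by simpa using h)))
    rw [badV_iff] at h3
    rw [← isChain_map (fun r => mark (odoR^[s] r))]
    simpa [Function.comp_def] using h3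
  rw [badH_iff, blk_chain] at hH
  rw [badC_iff] at hC
  refine ⟨r₀.map Prod.fst, rs.map (fun p => p.2.map Prod.fst), hH.2.1, ?_, hC, hH.2.2⟩
  have h1 := (isChain_forall _ _ hV).imp (fun r r' h => forall₂_of_Vok D.V r r' h)
  rw [← isChain_map (fun r : List (T × Bool) => r.map Prod.fst)] at h1
  simpa [Function.comp_def] using h1

/-- Words that end with a valid block whose counters agree. -/
def TS.Hid (n : ℕ) (w : List (YY T)) : Prop :=
  ∃ u b b' r₀ rs β, w = u ++ (Sum.inr true, b') :: (blk r₀ rs ++ [(Sum.inr true, b)]) ∧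
    D.Valid n (r₀.map Prod.fst) (rs.map (fun p => p.2.map Prod.fst)) ∧
    r₀.map Prod.snd = β ∧ ∀ p ∈ rs, p.2.map Prod.snd = β

theorem Hid_act (n : ℕ) (c : Bool) (w : List (YY T)) (h : D.Hid n w) :
    D.Hid n ((Aodo T).act c w) := by
  obtain ⟨u, b, b', r₀, rs, β, rfl, h1, h2, h3⟩ := h
  refine ⟨(Aodo T).act c u, b, b', odoR r₀, rs.map fun p => (p.1, odoR p.2), odo β, ?_, ?_, ?_, ?_⟩
  · rw [Aodo_sep, Aodo_true_blk]; rfl
  · simpa [odoR_fst, Function.comp_def] using h1
  · rw [odoR_snd, h2]
  · intro p hp
    obtain ⟨q, hq, rfl⟩ := mem_map.1 hp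
    rw [odoR_snd, h3 q hq]

theorem Hid_CFix (n : ℕ) (w : List (YY T)) (h : D.Hid n w) : ¬ (CFix D).Rev w := by
  obtain ⟨u, b, b', r₀, rs, β, rfl, h1, h2, h3⟩ := h
  rw [CFix, Chk.sum_Rev, Chk.sum_Rev]
  rintro (h | h | h)
  · obtain ⟨s, u', y, h4, h5⟩ := h
    have h6 : u ++ (Sum.inr true, b') :: (blk r₀ rs ++ [(Sum.inr true, b)]) =
      (u ++ (Sum.inr true, b') :: blk r₀ rs) ++ [(Sum.inr true, b)] := by simp
    rw [h6] at h4
    obtain ⟨-, h7⟩ := append_inj' h4 rfl
    simp only [cons.injEq, and_true] at h7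
    subst h7
    simp [C0, isEnd] at h5
  · refine blockChk_not_Rev _ _ _ _ _ (blk_free _ _) _ _ ?_ h
    rw [badH_iff, blk_chain]
    exact ⟨rfl, h1.1, h1.2.2.2⟩
  · refine blockChk_not_Rev _ _ _ _ _ (blk_free _ _) _ _ ?_ h
    rw [badV_iff]
    have h4 : mark r₀ :: rs.map (fun p => mark p.2) =
        (r₀.map Prod.fst :: rs.map (fun p => p.2.map Prod.fst)).map (fun ts => markB ts β) := by
      simp only [map_cons, map_map, mark, h2, cons.injEq, true_and]
      apply map_congr_left
      intro p hp
      simp [h3 p hp]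
    rw [h4, isChain_map]
    exact h1.2.1.imp (fun ts ts' h => Vok_of_forall₂ _ _ _ h β)

theorem Hid_CCnt (n : ℕ) (w : List (YY T)) (h : D.Hid n w) : ¬ (CCnt D n).Rev w := by
  obtain ⟨u, b, b', r₀, rs, β, rfl, h1, h2, h3⟩ := h
  refine blockChk_not_Rev _ _ _ _ _ (blk_free _ _) _ _ ?_
  rw [badC_iff]
  exact h1.2.2.1

theorem exists_Hid (n : ℕ) (hD : ∃ r₀ rs, D.Valid n r₀ rs) :
    ∃ (w₀ : List (YY T)) (y₀ : YY T), ∀ u, D.Hid n (u ++ (w₀ ++ [y₀])) := by
  obtain ⟨r₀, rs, h⟩ := hD
  let z : List T → List (T × Bool) := fun r => r.map (fun t => (t, false))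
  have hz : ∀ r, (z r).map Prod.fst = r := fun r => by simp [z, Function.comp_def]
  have hz' : ∀ r, (z r).map Prod.snd = replicate r.length false := fun r => by
    simp [z, Function.comp_def]
  have hlen : ∀ r ∈ rs, r.length = r₀.length := by
    have h1 := h.2.1
    clear h
    induction rs generalizing r₀ with
    | nil => simp
    | cons r rs ih =>
      rw [isChain_cons_cons] at h1
      intro r' hr'
      rcases mem_cons.1 hr' with rfl | hr'
      · exact h1.1.length_eq.symm
      · rw [ih r h1.2 r' hr', h1.1.length_eq]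
  refine ⟨(Sum.inr true, false) :: blk (z r₀) (rs.map fun r => (false, z r)), (Sum.inr true, false),
    fun u => ⟨u, false, false, z r₀, rs.map fun r => (false, z r), replicate r₀.length false,
      rfl, ?_, hz' _, ?_⟩⟩
  · simpa [hz, Function.comp_def] using h
  · intro p hp
    obtain ⟨r, hr, rfl⟩ := mem_map.1 hp
    rw [hz', hlen r hr]

/-- The automaton attached to a tiling problem and an input. -/
noncomputable def TAut (n : ℕ) := Big (Aodo T) (CFix D) (CCnt D n)

theorem TAut_lower [Fintype T] (n : ℕ) (hD : ¬ ∃ r₀ rs, D.Valid n r₀ rs) (k : ℕ) (hk : 1 ≤ k) :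
    2 ^ (Fintype.card (XX (YY T × Bool)) ^ k) ≤ ((TAut D n).Lset (k + 1)).ncard :=
  Big_lower _ _ _ (tiles_rev D n hD) k hk

theorem TAut_upper [Fintype T] (n : ℕ) (hD : ∃ r₀ rs, D.Valid n r₀ rs) :
    ∃ w : List (XX (YY T × Bool)), w ≠ [] ∧ ∀ k, ((TAut D n).Lset k).ncard ≤
      (Fintype.card (XX (YY T × Bool)) ^ k) ^ (Aut.Avoid w k).ncard := by
  obtain ⟨w₀, y₀, h⟩ := exists_Hid D n hD
  exact Big_upper _ _ _ (D.Hid n) (Hid_act D n) (Hid_CFix D n) (Hid_CCnt D n) w₀ y₀ h

end checkers

end Pool.Agent.P.MP_4ffd61_al
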